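import Pool.Agent.Lib.MP_523900_gt.Cells

open Set MeasureTheory Metric Filter
open scoped ENNReal NNReal Topology

namespace Pool.Agent.Lib.MP_523900_gt

theorem limit_of_cells {S : Set E3} (hS : MeasurableSet S) {D : ℝ} {b : E3} (hb : b ∈ S)
    (hD : ∀ x ∈ S, ∀ y ∈ S, Conn S x y D ∅)
    (hC : ∀ κ > 1, ∀ δ > 0, ∃ (ι : Type) (_ : Fintype ι), Nonempty (Cells S κ δ ι)) :
    μHE[2] S < ⊤ ∧ Tendsto (fun ε : ℝ => ENNReal.ofReal ε * shortestDense S ε) (𝓝[>] 0)
      (𝓝 (μHE[2] S / 2)) := by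
  have hfin : μHE[2] S < ⊤ := by
    obtain ⟨ι, _, ⟨C⟩⟩ := hC 2 (by norm_num) 1 one_pos
    exact C.area_le.trans_lt ENNReal.ofReal_lt_top
  refine ⟨hfin, ?_⟩
  set A := (μHE[2] S).toReal with hA
  have hA0 : 0 ≤ A := ENNReal.toReal_nonneg
  have hAe : μHE[2] S = ENNReal.ofReal A := (ENNReal.ofReal_toReal hfin.ne).symm
  have hLfin : ∀ᶠ ε in 𝓝[>] (0 : ℝ), shortestDense S ε < ⊤ := by
    obtain ⟨ι, _, ⟨C⟩⟩ := hC 2 (by norm_num) 1 one_pos
    obtain ⟨M, hM⟩ := C.upper_bound hb hD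
    filter_upwards [hM] with ε h using h.trans_lt ENNReal.ofReal_lt_top
  have hreal : Tendsto (fun ε : ℝ => ε * (shortestDense S ε).toReal) (𝓝[>] 0) (𝓝 (A / 2)) := by
    rw [tendsto_order]
    constructor
    · intro c hc
      have t1 : Tendsto (fun κ : ℝ => A - (κ - 1) - 2 * κ ^ 5 * c) (𝓝[>] 1)
          (𝓝 (A - (1 - 1) - 2 * 1 ^ 5 * c)) :=
        tendsto_nhdsWithin_of_tendsto_nhds (Continuous.tendsto (by fun_prop) 1)
      obtain ⟨κ, hκ1, hκ⟩ := ((t1.eventually (lt_mem_nhds (by linarith :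
        (0 : ℝ) < A - (1 - 1) - 2 * 1 ^ 5 * c))).and self_mem_nhdsWithin).exists
      have hκ : 1 < κ := hκ
      obtain ⟨ι, _, ⟨C⟩⟩ := hC κ hκ (κ - 1) (by linarith)
      have hAle : A ≤ C.goodArea + (κ - 1) := by
        have := C.area_le
        rwa [hAe, ENNReal.ofReal_le_ofReal_iff (by linarith [C.goodArea_nonneg])] at this
      have t2 : Tendsto (fun ε : ℝ => κ ^ 2 * (C.good.card * (Real.pi * (κ ^ 2 * ε) ^ 2)) +
          2 * κ ^ 5 * ε) (𝓝[>] 0)
          (𝓝 (κ ^ 2 * (C.good.card * (Real.pi * (κ ^ 2 * 0) ^ 2)) + 2 * κ ^ 5 * 0)) :=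
        tendsto_nhdsWithin_of_tendsto_nhds (Continuous.tendsto (by fun_prop) 0)
      have t3 := t2.eventually (gt_mem_nhds (by simpa using hκ1 :
        κ ^ 2 * (C.good.card * (Real.pi * (κ ^ 2 * 0) ^ 2)) + 2 * κ ^ 5 * 0 <
          A - (κ - 1) - 2 * κ ^ 5 * c))
      filter_upwards [C.lower_bound hκ, hLfin, t3, self_mem_nhdsWithin] with ε hlow hfin' h3 hε
      have hε : 0 < ε := hε
      have hlt : shortestDense S ε < shortestDense S ε + 1 :=
        ENNReal.lt_add_right hfin'.ne one_ne_zero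
      conv_lhs at hlt => unfold shortestDense
      obtain ⟨γ, hγ⟩ := iInf_lt_iff.1 hlt
      obtain ⟨⟨h1, h2, h3'⟩, hγ⟩ := iInf_lt_iff.1 hγ
      have h4 := hlow γ h1 h2 h3'
      have h5 : (len γ).toReal ≤ (shortestDense S ε).toReal + 1 := by
        have := ENNReal.toReal_mono (by simp [hfin'.ne]) hγ.le
        rwa [ENNReal.toReal_add hfin'.ne ENNReal.one_ne_top, ENNReal.toReal_one] at this
      have hκ5 : 0 < 2 * κ ^ 5 := by positivity
      have h6 : κ ^ 2 * (2 * (κ ^ 2 * ε) * κ * (len γ).toReal) ≤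
          2 * κ ^ 5 * (ε * (shortestDense S ε).toReal) + 2 * κ ^ 5 * ε := by
        calc κ ^ 2 * (2 * (κ ^ 2 * ε) * κ * (len γ).toReal)
            = 2 * κ ^ 5 * ε * (len γ).toReal := by ring
          _ ≤ 2 * κ ^ 5 * ε * ((shortestDense S ε).toReal + 1) := by gcongr
          _ = _ := by ring
      rw [mul_add] at h4
      have : 2 * κ ^ 5 * c < 2 * κ ^ 5 * (ε * (shortestDense S ε).toReal) := by linarith
      exact lt_of_mul_lt_mul_left this hκ5.le
    · intro c hc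
      have t1 : Tendsto (fun κ : ℝ => (κ ^ 2 * A + (κ - 1)) / 2) (𝓝[>] 1)
          (𝓝 ((1 ^ 2 * A + (1 - 1)) / 2)) :=
        tendsto_nhdsWithin_of_tendsto_nhds (Continuous.tendsto (by fun_prop) 1)
      obtain ⟨κ, hκ1, hκ⟩ := ((t1.eventually (gt_mem_nhds (by linarith :
        (1 ^ 2 * A + (1 - 1)) / 2 < c))).and self_mem_nhdsWithin).exists
      have hκ : 1 < κ := hκ
      obtain ⟨ι, _, ⟨C⟩⟩ := hC κ hκ (κ - 1) (by linarith)
      have hle : C.goodArea ≤ κ ^ 2 * A := by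
        have := C.le_area (by linarith) hS
        rwa [hAe, ← ENNReal.ofReal_mul (by positivity),
          ENNReal.ofReal_le_ofReal_iff (by positivity)] at this
      obtain ⟨M, hM⟩ := C.upper_bound hb hD
      have t2 : Tendsto (fun ε : ℝ => (κ ^ 2 * A + (κ - 1)) / 2 + ε * |M|) (𝓝[>] 0)
          (𝓝 ((κ ^ 2 * A + (κ - 1)) / 2 + 0 * |M|)) :=
        tendsto_nhdsWithin_of_tendsto_nhds (Continuous.tendsto (by fun_prop) 0)
      have t3 := t2.eventually (gt_mem_nhds (by simpa using hκ1 :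
        (κ ^ 2 * A + (κ - 1)) / 2 + 0 * |M| < c))
      filter_upwards [hM, t3, self_mem_nhdsWithin] with ε h1 h3 hε
      have hε : 0 < ε := hε
      have hg := C.goodArea_nonneg
      have h4 : (shortestDense S ε).toReal ≤ (C.goodArea + (κ - 1)) / (2 * ε) + |M| := by
        refine ENNReal.toReal_le_of_le_ofReal (add_nonneg (div_nonneg (by linarith) (by linarith))
          (abs_nonneg _)) (h1.trans (ENNReal.ofReal_le_ofReal ?_))
        linarith [le_abs_self M]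
      calc ε * (shortestDense S ε).toReal ≤ ε * ((C.goodArea + (κ - 1)) / (2 * ε) + |M|) := by
            gcongr
        _ = (C.goodArea + (κ - 1)) / 2 + ε * |M| := by field_simp
        _ ≤ (κ ^ 2 * A + (κ - 1)) / 2 + ε * |M| := by gcongr
        _ < c := h3
  have h2 := ENNReal.tendsto_ofReal hreal
  rw [ENNReal.ofReal_div_of_pos two_pos, ← hAe, ENNReal.ofReal_ofNat] at h2
  refine h2.congr' ?_
  filter_upwards [hLfin, self_mem_nhdsWithin] with ε h hε
  rw [ENNReal.ofReal_mul (le_of_lt hε), ENNReal.ofReal_toReal h.ne]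

end Pool.Agent.Lib.MP_523900_gt
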