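import Pool.Agent.Lib.MP_523900_gt.Charts
import Pool.Agent.Lib.MP_523900_gt.Limit

open Set MeasureTheory Metric Filter
open scoped ENNReal NNReal Topology

namespace Pool.Agent.Lib.MP_523900_gt

/-- Sign attached to a boolean. -/
def sgn (b : Bool) : ℝ := if b then 1 else -1

theorem sgn_sq (b : Bool) : sgn b ^ 2 = 1 := by cases b <;> simp [sgn]

/-- Left end of the `i`-th interval of the subdivision of `[-1,1]` in `N` parts. -/
noncomputable def node (N : ℕ) (i : Fin N) : ℝ := -1 + (i : ℕ) * (2 / N)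

theorem node_ge (N : ℕ) (i : Fin N) : -1 ≤ node N i := by
  unfold node
  have : (0 : ℝ) ≤ (i : ℕ) * (2 / N) := by positivity
  linarith

theorem node_le (N : ℕ) (i : Fin N) : node N i + 2 / N ≤ 1 := by
  have hN : (0 : ℝ) < N := by exact_mod_cast i.pos
  have hi : ((i : ℕ) : ℝ) + 1 ≤ N := by exact_mod_cast i.2
  have : (((i : ℕ) : ℝ) + 1) * (2 / N) ≤ N * (2 / N) := by gcongr
  rw [mul_div_cancel₀ _ hN.ne'] at this
  unfold node
  linarith

theorem node_unique {N : ℕ} {i j : Fin N} {v : ℝ} (hi : v ∈ Ioo (node N i) (node N i + 2 / N))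
    (hj : v ∈ Ioo (node N j) (node N j + 2 / N)) : i = j := by
  have hN : (0 : ℝ) < N := by exact_mod_cast i.pos
  have hη : (0 : ℝ) < 2 / N := by positivity
  unfold node at hi hj
  have h1 : ((i : ℕ) : ℝ) * (2 / N) < (((j : ℕ) : ℝ) + 1) * (2 / N) := by linarith [hi.1, hj.2]
  have h2 : ((j : ℕ) : ℝ) * (2 / N) < (((i : ℕ) : ℝ) + 1) * (2 / N) := by linarith [hj.1, hi.2]
  have h1' : (i : ℕ) < (j : ℕ) + 1 := by exact_mod_cast lt_of_mul_lt_mul_right h1 hη.le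
  have h2' : (j : ℕ) < (i : ℕ) + 1 := by exact_mod_cast lt_of_mul_lt_mul_right h2 hη.le
  ext; omega

theorem node_exists {N : ℕ} (hN : 0 < N) {v : ℝ} (hv : v ∈ Icc (-1 : ℝ) 1) :
    ∃ i : Fin N, v ∈ Icc (node N i) (node N i + 2 / N) := by
  have hN' : (0 : ℝ) < N := by exact_mod_cast hN
  have hη : (0 : ℝ) < 2 / N := by positivity
  have h0 : 0 ≤ (v + 1) / (2 / N) := div_nonneg (by linarith [hv.1]) hη.le
  have h1 := Nat.floor_le h0
  have h2 := Nat.lt_floor_add_one ((v + 1) / (2 / N))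
  rw [le_div_iff₀ hη] at h1
  rw [div_lt_iff₀ hη] at h2
  by_cases h : ⌊(v + 1) / (2 / N)⌋₊ < N
  · exact ⟨⟨_, h⟩, by unfold node; simp only; linarith, by unfold node; simp only; linarith⟩
  · have h3 : (N : ℝ) ≤ ⌊(v + 1) / (2 / N)⌋₊ := by exact_mod_cast not_lt.1 h
    have h4 : (N : ℝ) * (2 / N) ≤ ⌊(v + 1) / (2 / N)⌋₊ * (2 / N) := by gcongr
    rw [mul_div_cancel₀ _ hN'.ne'] at h4
    have h5 : (((N - 1 : ℕ) : ℝ) + 1) * (2 / N) = 2 := by
      rw [Nat.cast_pred hN, sub_add_cancel, mul_div_cancel₀ _ hN'.ne']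
    refine ⟨⟨N - 1, by omega⟩, ?_, ?_⟩ <;> unfold node <;> simp only <;> linarith [hv.2]

theorem card_bad_le {N : ℕ} (hN : 0 < N) (B : Finset (Fin N × Fin N)) {G : Set (ℝ × ℝ)} {δ : ℝ}
    (hδ : 0 ≤ δ) (hB : ∀ i ∈ B, Disjoint (sq (node N i.1) (node N i.2) (2 / N)) G)
    (hG : volume ((Icc (-1 : ℝ) 1 ×ˢ Icc (-1 : ℝ) 1) \ G) ≤ ENNReal.ofReal δ) :
    ∑ _i ∈ B, ((2 : ℝ) / N) ^ 2 ≤ δ := by
  have hη : (0 : ℝ) ≤ 2 / N := by positivity
  rw [← ENNReal.ofReal_le_ofReal_iff hδ, ENNReal.ofReal_sum_of_nonneg fun _ _ => by positivity]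
  refine le_trans ?_ hG
  calc ∑ _i ∈ B, ENNReal.ofReal (((2 : ℝ) / N) ^ 2)
      = ∑ i ∈ B, volume (openSq (node N i.1) (node N i.2) (2 / N)) :=
        Finset.sum_congr rfl fun i _ => (volume_openSq _ _ hη).symm
    _ = volume (⋃ i ∈ B, openSq (node N i.1) (node N i.2) (2 / N)) := by
        rw [measure_biUnion_finset]
        · intro i _ j _ hij
          refine disjoint_left.2 fun x hx hx' => hij ?_
          exact Prod.ext (node_unique hx.1 hx'.1) (node_unique hx.2 hx'.2)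
        · exact fun i _ => measurableSet_Ioo.prod measurableSet_Ioo
    _ ≤ _ := by
        refine measure_mono (iUnion₂_subset fun i hi x hx => ⟨⟨⟨?_, ?_⟩, ⟨?_, ?_⟩⟩, ?_⟩)
        · linarith [node_ge N i.1, hx.1.1]
        · linarith [node_le N i.1, hx.1.2]
        · linarith [node_ge N i.2, hx.2.1]
        · linarith [node_le N i.2, hx.2.2]
        · exact disjoint_left.1 (hB i hi) (openSq_subset_sq _ _ _ hx)

/-- The open cone over a cell. -/
def cone (c : E3) (k : Fin 3) (σ x0 y0 η : ℝ) : Set E3 :=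
  {x | 0 < σ * (x - c) k ∧
    (x0 * (σ * (x - c) k) < (x - c) (k + 1) ∧ (x - c) (k + 1) < (x0 + η) * (σ * (x - c) k)) ∧
    (y0 * (σ * (x - c) k) < (x - c) (k + 2) ∧ (x - c) (k + 2) < (y0 + η) * (σ * (x - c) k))}

theorem isOpen_cone (c : E3) (k : Fin 3) (σ x0 y0 η : ℝ) : IsOpen (cone c k σ x0 y0 η) := by
  unfold cone
  refine IsOpen.and ?_ (IsOpen.and (IsOpen.and ?_ ?_) (IsOpen.and ?_ ?_)) <;>
    exact isOpen_lt (by fun_prop) (by fun_prop)

theorem cone_ratio {c : E3} {k : Fin 3} {σ x0 y0 η : ℝ} {x : E3} (h : x ∈ cone c k σ x0 y0 η) :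
    ((x - c) (k + 1) / (σ * (x - c) k), (x - c) (k + 2) / (σ * (x - c) k)) ∈ openSq x0 y0 η := by
  obtain ⟨h0, ⟨h1, h2⟩, h3, h4⟩ := h
  exact ⟨⟨(lt_div_iff₀ h0).2 h1, (div_lt_iff₀ h0).2 h2⟩, (lt_div_iff₀ h0).2 h3,
    (div_lt_iff₀ h0).2 h4⟩

theorem cone_face_unique {c : E3} {k k' : Fin 3} {b b' : Bool} {x0 y0 η x0' y0' : ℝ} {x : E3}
    (h : x ∈ cone c k (sgn b) x0 y0 η) (h' : x ∈ cone c k' (sgn b') x0' y0' η)
    (a1 : -1 ≤ x0) (a2 : x0 + η ≤ 1) (a3 : -1 ≤ y0) (a4 : y0 + η ≤ 1)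
    (b1 : -1 ≤ x0') (b2 : x0' + η ≤ 1) (b3 : -1 ≤ y0') (b4 : y0' + η ≤ 1) : k = k' ∧ b = b' := by
  have key : ∀ {k : Fin 3} {b : Bool} {x0 y0 : ℝ}, x ∈ cone c k (sgn b) x0 y0 η → -1 ≤ x0 →
      x0 + η ≤ 1 → -1 ≤ y0 → y0 + η ≤ 1 →
      |(x - c) (k + 1)| < |(x - c) k| ∧ |(x - c) (k + 2)| < |(x - c) k| := by
    rintro k b x0 y0 ⟨h0, ⟨h1, h2⟩, h3, h4⟩ a1 a2 a3 a4
    have e : sgn b * (x - c) k = |(x - c) k| := by
      rw [← abs_of_pos h0, abs_mul]; cases b <;> simp [sgn]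
    rw [e] at h0 h1 h2 h3 h4
    constructor <;> rw [abs_lt] <;> constructor <;> nlinarith
  obtain ⟨p1, p2⟩ := key h a1 a2 a3 a4
  obtain ⟨q1, q2⟩ := key h' b1 b2 b3 b4
  have hk : k = k' := by
    by_contra hne
    have : k' = k + 1 ∧ k = k' + 2 ∨ k' = k + 2 ∧ k = k' + 1 := by
      revert hne; fin_cases k <;> fin_cases k' <;> simp
    rcases this with ⟨e1, e2⟩ | ⟨e1, e2⟩
    · rw [← e1] at p1; rw [← e2] at q2; linarith
    · rw [← e1] at p2; rw [← e2] at q1; linarith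
  subst hk
  refine ⟨rfl, ?_⟩
  have h0 := h.1
  have h0' := h'.1
  cases b <;> cases b' <;> simp only [sgn] at h0 h0' <;> first | rfl | (simp at h0 h0'; linarith)

theorem IsGauge.exists_cells {g : E3 → ℝ} {r R : ℝ} (H : IsGauge g r R) (c : E3) {κ δ : ℝ}
    (hκ : 1 < κ) (hδ : 0 < δ) :
    ∃ (ι : Type) (_ : Fintype ι), Nonempty (Cells {x | g (x - c) = 1} κ δ ι) := by
  classical
  have hr := H.r_pos
  have hR := H.R_pos
  set M := R * (1 + R / r) with hM
  have hM0 : 0 < M := by positivity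
  let ch : Fin 3 × Bool → ℝ × ℝ → E3 := fun j => chart c g j.1 (sgn j.2)
  set δ' := δ / (6 * M ^ 2) with hδ'
  have hδ'0 : 0 < δ' := by positivity
  have hev : ∀ j : Fin 3 × Bool, ∀ᶠ m in atTop,
      volume ((Icc (-1 : ℝ) 1 ×ˢ Icc (-1 : ℝ) 1) \ goodSet κ (ch j) m) ≤ ENNReal.ofReal δ' := by
    intro j
    have := tendsto_bad (H.ae_good c hκ j.1 (sgn_sq j.2))
      (Q := Icc (-1 : ℝ) 1 ×ˢ Icc (-1 : ℝ) 1) (measurableSet_Icc.prod measurableSet_Icc)
      (isCompact_Icc.prod isCompact_Icc).measure_lt_top.ne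
    exact this.eventually (ge_mem_nhds (ENNReal.ofReal_pos.2 hδ'0))
  obtain ⟨m, hm⟩ := (eventually_all.2 hev).exists
  set N := 4 * (m + 1) with hN
  have hN0 : 0 < N := by omega
  have hN' : (0 : ℝ) < N := by exact_mod_cast hN0
  set η : ℝ := 2 / N with hη
  have hη0 : 0 < η := by positivity
  have hηm : 2 * η = 1 / ((m : ℝ) + 1) := by
    rw [hη, hN]; push_cast; field_simp; ring
  let ι := (Fin 3 × Bool) × (Fin N × Fin N)
  let isGood : ι → Prop := fun i =>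
    ¬ Disjoint (sq (node N i.2.1) (node N i.2.2) η) (goodSet κ (ch i.1) m)
  have hpar : ∀ i : ι, ∃ a s h : ℝ, 0 < a ∧ 0 < h ∧
      (∀ u ∈ bigSq (node N i.2.1) (node N i.2.2) η, ∀ v ∈ bigSq (node N i.2.1) (node N i.2.2) η,
        ‖ch i.1 u - ch i.1 v‖ ≤ ‖shear a s h (u - v)‖) ∧
      (isGood i → ∀ u ∈ sq (node N i.2.1) (node N i.2.2) η,
        ∀ v ∈ sq (node N i.2.1) (node N i.2.2) η,
          ‖shear a s h (u - v)‖ ≤ κ * ‖ch i.1 u - ch i.1 v‖) ∧
      (¬ isGood i → a = M ∧ h = M) := by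
    intro i
    by_cases hi : isGood i
    · obtain ⟨u0, hu0, ρ, hρ, a, s, h, ha, hh, hg⟩ := not_disjoint_iff.1 hi
      have hsub : bigSq (node N i.2.1) (node N i.2.2) η ⊆ ball u0 ρ := by
        intro v hv
        rw [mem_ball, Prod.dist_eq, Real.dist_eq, Real.dist_eq, max_lt_iff, abs_lt, abs_lt]
        obtain ⟨⟨a1, a2⟩, a3, a4⟩ := hu0
        obtain ⟨⟨b1, b2⟩, b3, b4⟩ := hv
        refine ⟨⟨?_, ?_⟩, ?_, ?_⟩ <;> linarith
      refine ⟨a, s, h, ha, hh, fun u hu v hv => (hg u (hsub hu) v (hsub hv)).1,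
        fun _ u hu v hv => (hg u (hsub (sq_subset_bigSq hη0 hu)) v
          (hsub (sq_subset_bigSq hη0 hv))).2, fun h => absurd hi h⟩
    · exact ⟨M, 0, M, hM0, hM0, fun u _ v _ => H.chart_lip c _ (sgn_sq _) u v,
        fun h => absurd h hi, fun _ => ⟨rfl, rfl⟩⟩
  choose a s h ha hh hup hlow hbad using hpar
  refine ⟨ι, inferInstance, ⟨{
    F := fun i => ch i.1
    x0 := fun i => node N i.2.1
    y0 := fun i => node N i.2.2
    η := η
    a := a
    s := s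
    h := h
    good := Finset.univ.filter isGood
    bad := Finset.univ.filter fun i => ¬ isGood i
    O := fun i => cone c i.1.1 (sgn i.1.2) (node N i.2.1) (node N i.2.2) η
    η_pos := hη0
    a_pos := ha
    h_pos := hh
    cont := fun i => H.continuous_chart c _ (sgn_sq _)
    mem := fun i u => H.chart_mem c _ (sgn_sq _) u
    upper := hup
    cover := ?_
    lower := fun i hi => hlow i (Finset.mem_filter.1 hi).2
    O_open := fun i => isOpen_cone _ _ _ _ _ _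
    O_eq := ?_
    disj := ?_
    split := fun f => (Finset.sum_filter_add_sum_filter_not _ _ _).symm
    bad_le := ?_ }⟩⟩
  · intro x hx
    obtain ⟨k, σ, hσ, u, hu, rfl⟩ := H.exists_chart c hx
    obtain ⟨i, hi⟩ := node_exists hN0 hu.1
    obtain ⟨j, hj⟩ := node_exists hN0 hu.2
    rcases hσ with rfl | rfl
    · exact ⟨((k, true), (i, j)), u, ⟨hi, hj⟩, by simp [ch, sgn]⟩
    · exact ⟨((k, false), (i, j)), u, ⟨hi, hj⟩, by simp [ch, sgn]⟩
  · intro i
    ext x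
    constructor
    · rintro ⟨hx, hO⟩
      exact ⟨_, cone_ratio hO, H.chart_eq c hx _ (sgn_sq _) hO.1⟩
    · rintro ⟨u, ⟨⟨h1, h2⟩, h3, h4⟩, rfl⟩
      refine ⟨H.chart_mem c _ (sgn_sq _) u, ?_⟩
      obtain ⟨t, ht, e0, e1, e2⟩ := H.chart_coord c i.1.1 (sgn_sq i.1.2) u
      simp only [cone, mem_ofPred_eq, ch]
      rw [e0, e1, e2]
      refine ⟨ht, ⟨?_, ?_⟩, ?_, ?_⟩ <;> gcongr
  · rintro ⟨⟨k, b⟩, i1, i2⟩ ⟨⟨k', b'⟩, j1, j2⟩ x - hi hj
    dsimp only at hi hj
    obtain ⟨rfl, rfl⟩ := cone_face_unique hi hj (node_ge _ _) (node_le _ _) (node_ge _ _)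
      (node_le _ _) (node_ge _ _) (node_le _ _) (node_ge _ _) (node_le _ _)
    have p := cone_ratio hi
    have q := cone_ratio hj
    rw [node_unique p.1 q.1, node_unique p.2 q.2]
  · calc ∑ i ∈ Finset.univ.filter (fun i => ¬ isGood i), a i * h i * η ^ 2
        = ∑ i ∈ Finset.univ.filter (fun i => ¬ isGood i), M ^ 2 * η ^ 2 := by
          refine Finset.sum_congr rfl fun i hi => ?_
          obtain ⟨e1, e2⟩ := hbad i (Finset.mem_filter.1 hi).2
          rw [e1, e2]; ring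
      _ = ∑ j : Fin 3 × Bool, M ^ 2 * ∑ _i ∈ Finset.univ.filter
            (fun i : Fin N × Fin N => ¬ isGood (j, i)), η ^ 2 := by
          rw [Finset.sum_filter, Fintype.sum_prod_type]
          refine Finset.sum_congr rfl fun j _ => ?_
          rw [Finset.mul_sum, Finset.sum_filter]
      _ ≤ ∑ _j : Fin 3 × Bool, M ^ 2 * δ' := by
          refine Finset.sum_le_sum fun j _ => ?_
          gcongr
          refine card_bad_le hN0 _ hδ'0.le (fun i hi => ?_) (hm j)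
          exact not_not.1 (Finset.mem_filter.1 hi).2
      _ = δ := by
          rw [Finset.sum_const, Finset.card_univ, hδ']
          simp
          field_simp

theorem exists_gauge {K : Set E3} (hK : Convex ℝ K) (hc : IsCompact K)
    (hi : (interior K).Nonempty) :
    ∃ (g : E3 → ℝ) (r R : ℝ) (c : E3), IsGauge g r R ∧ frontier K = {x | g (x - c) = 1} := by
  obtain ⟨c, hc0⟩ := hi
  let K' : Set E3 := (Homeomorph.addRight c) ⁻¹' K
  have hK' : Convex ℝ K' := hK.translate_preimage_left c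
  have h0 : K' ∈ 𝓝 (0 : E3) := by
    apply (Homeomorph.addRight c).continuous.continuousAt.preimage_mem_nhds
    simpa using mem_interior_iff_mem_nhds.1 hc0
  obtain ⟨r, hr, hr'⟩ := Metric.mem_nhds_iff.1 h0
  have hcomp : IsCompact K' := (Homeomorph.addRight c).isCompact_preimage.2 hc
  obtain ⟨R, hR, hR'⟩ := hcomp.isBounded.subset_closedBall_lt 0 (0 : E3)
  have habs : Absorbent ℝ K' := absorbent_nhds_zero h0
  have hhom : ∀ t : ℝ, 0 ≤ t → ∀ x, gauge K' (t • x) = t * gauge K' x :=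
    fun t ht x => gauge_smul_of_nonneg ht x
  refine ⟨gauge K', r, R, c, ⟨hr, hR, ?_, hhom, ?_, fun x => mul_gauge_le_norm hr', ?_⟩, ?_⟩
  · refine ⟨convex_univ, fun x _ y _ a b ha hb _ => ?_⟩
    refine (gauge_add_le hK' habs _ _).trans (le_of_eq ?_)
    rw [hhom a ha, hhom b hb, smul_eq_mul, smul_eq_mul]
  · intro x
    have := le_gauge_of_subset_closedBall (x := x) habs hR.le hR'
    rwa [div_le_iff₀ hR, mul_comm] at this
  · intro x y
    have := (hK'.lipschitzWith_gauge (r := r.toNNReal) (Real.toNNReal_pos.2 hr)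
      (by rwa [Real.coe_toNNReal _ hr.le])).dist_le_mul x y
    rw [Real.dist_eq, dist_eq_norm, NNReal.coe_inv, Real.coe_toNNReal _ hr.le] at this
    exact this.trans (le_of_eq (by ring))
  · ext x
    rw [mem_ofPred_eq, gauge_eq_one_iff_mem_frontier hK' h0, ← Homeomorph.preimage_frontier]
    simp

theorem main {K : Set E3} (hK : Convex ℝ K) (hc : IsCompact K) (hi : (interior K).Nonempty) :
    μHE[2] (frontier K) < ⊤ ∧
      Tendsto (fun ε : ℝ => ENNReal.ofReal ε * shortestDense (frontier K) ε) (𝓝[>] 0)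
        (𝓝 (μHE[2] (frontier K) / 2)) := by
  obtain ⟨g, r, R, c, H, hS⟩ := exists_gauge hK hc hi
  have hmeas : MeasurableSet (frontier K) := isClosed_frontier.measurableSet
  rw [hS] at hmeas ⊢
  exact limit_of_cells hmeas (b := chart c g 0 1 (1, 1)) (H.chart_mem c 0 (by norm_num) _)
    (fun x hx y hy => H.conn_all c hx hy) fun κ hκ δ hδ => H.exists_cells c hκ hδ

end Pool.Agent.Lib.MP_523900_gt
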