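import Pool.Agent.Lib.MP_523900_gt.Discs

open Set MeasureTheory Metric Filter
open scoped ENNReal NNReal Topology

namespace Pool.Agent.Lib.MP_523900_gt

/-- The open cell. -/
def openSq (x0 y0 η : ℝ) : Set (ℝ × ℝ) := Ioo x0 (x0 + η) ×ˢ Ioo y0 (y0 + η)

/-- A decomposition of a surface in finitely many cells, most of them nearly flat. -/
structure Cells (S : Set E3) (κ δ : ℝ) (ι : Type) [Fintype ι] : Type where
  F : ι → ℝ × ℝ → E3
  x0 : ι → ℝ
  y0 : ι → ℝ
  η : ℝ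
  a : ι → ℝ
  s : ι → ℝ
  h : ι → ℝ
  good : Finset ι
  bad : Finset ι
  O : ι → Set E3
  η_pos : 0 < η
  a_pos : ∀ i, 0 < a i
  h_pos : ∀ i, 0 < h i
  cont : ∀ i, Continuous (F i)
  mem : ∀ i u, F i u ∈ S
  upper : ∀ i, ∀ u ∈ bigSq (x0 i) (y0 i) η, ∀ v ∈ bigSq (x0 i) (y0 i) η,
    ‖F i u - F i v‖ ≤ ‖shear (a i) (s i) (h i) (u - v)‖
  cover : ∀ x ∈ S, ∃ i, ∃ u ∈ sq (x0 i) (y0 i) η, F i u = x
  lower : ∀ i ∈ good, ∀ u ∈ sq (x0 i) (y0 i) η, ∀ v ∈ sq (x0 i) (y0 i) η,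
    ‖shear (a i) (s i) (h i) (u - v)‖ ≤ κ * ‖F i u - F i v‖
  O_open : ∀ i, IsOpen (O i)
  O_eq : ∀ i, S ∩ O i = F i '' openSq (x0 i) (y0 i) η
  disj : ∀ i j, ∀ x ∈ S, x ∈ O i → x ∈ O j → i = j
  split : ∀ f : ι → ℝ, ∑ i, f i = ∑ i ∈ good, f i + ∑ i ∈ bad, f i
  bad_le : ∑ i ∈ bad, a i * h i * η ^ 2 ≤ δ

theorem sq_subset_bigSq {x0 y0 η : ℝ} (hη : 0 < η) : sq x0 y0 η ⊆ bigSq x0 y0 η :=
  prod_mono (Icc_subset_Icc (by linarith) (by linarith)) (Icc_subset_Icc (by linarith) (by linarith))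

theorem openSq_subset_sq (x0 y0 η : ℝ) : openSq x0 y0 η ⊆ sq x0 y0 η :=
  prod_mono Ioo_subset_Icc_self Ioo_subset_Icc_self

theorem volume_sq (x0 y0 : ℝ) {η : ℝ} (hη : 0 ≤ η) :
    volume (sq x0 y0 η) = ENNReal.ofReal (η ^ 2) := by
  rw [sq, Measure.volume_eq_prod, Measure.prod_prod, Real.volume_Icc, Real.volume_Icc,
    ← ENNReal.ofReal_mul (by linarith)]
  congr 1; ring

theorem volume_openSq (x0 y0 : ℝ) {η : ℝ} (hη : 0 ≤ η) :
    volume (openSq x0 y0 η) = ENNReal.ofReal (η ^ 2) := by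
  rw [openSq, Measure.volume_eq_prod, Measure.prod_prod, Real.volume_Ioo, Real.volume_Ioo,
    ← ENNReal.ofReal_mul (by linarith)]
  congr 1; ring

namespace Cells

variable {S : Set E3} {κ δ : ℝ} {ι : Type} [Fintype ι] (C : Cells S κ δ ι)

/-- Flat area of the good cells. -/
noncomputable def goodArea : ℝ := ∑ i ∈ C.good, C.a i * C.h i * C.η ^ 2

theorem term_nonneg (i : ι) : 0 ≤ C.a i * C.h i * C.η ^ 2 := by
  have := C.a_pos i; have := C.h_pos i; positivity

theorem goodArea_nonneg : 0 ≤ C.goodArea := Finset.sum_nonneg fun i _ => C.term_nonneg i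

theorem total_le : ∑ i, C.a i * C.h i * C.η ^ 2 ≤ C.goodArea + δ := by
  rw [C.split]; unfold goodArea; linarith [C.bad_le]

theorem area_le : μHE[2] S ≤ ENNReal.ofReal (C.goodArea + δ) := by
  have hsub : S ⊆ ⋃ i ∈ (Finset.univ : Finset ι), C.F i '' sq (C.x0 i) (C.y0 i) C.η := by
    intro x hx
    obtain ⟨i, u, hu, rfl⟩ := C.cover x hx
    simp only [mem_iUnion]
    exact ⟨i, Finset.mem_univ _, u, hu, rfl⟩
  refine (measure_mono hsub).trans ((measure_biUnion_finset_le _ _).trans ?_)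
  refine le_trans ?_ (ENNReal.ofReal_le_ofReal C.total_le)
  rw [ENNReal.ofReal_sum_of_nonneg fun i _ => C.term_nonneg i]
  refine Finset.sum_le_sum fun i _ => ?_
  refine (area_image_le (C.a_pos i) (C.h_pos i) fun u hu v hv =>
    C.upper i u (sq_subset_bigSq C.η_pos hu) v (sq_subset_bigSq C.η_pos hv)).trans ?_
  rw [volume_sq _ _ C.η_pos.le, ← ENNReal.ofReal_mul (mul_pos (C.a_pos i) (C.h_pos i)).le]

theorem le_area (hκ : 0 ≤ κ) (hS : MeasurableSet S) :
    ENNReal.ofReal C.goodArea ≤ ENNReal.ofReal (κ ^ 2) * μHE[2] S := by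
  unfold goodArea
  rw [ENNReal.ofReal_sum_of_nonneg fun i _ => C.term_nonneg i]
  calc ∑ i ∈ C.good, ENNReal.ofReal (C.a i * C.h i * C.η ^ 2)
      ≤ ∑ i ∈ C.good, ENNReal.ofReal (κ ^ 2) * μHE[2] (S ∩ C.O i) := by
        refine Finset.sum_le_sum fun i hi => ?_
        rw [C.O_eq, ENNReal.ofReal_mul (mul_pos (C.a_pos i) (C.h_pos i)).le,
          ← volume_openSq (C.x0 i) (C.y0 i) C.η_pos.le]
        exact le_area_image (C.a_pos i).le (C.h_pos i).le hκ fun u hu v hv =>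
          C.lower i hi u (openSq_subset_sq _ _ _ hu) v (openSq_subset_sq _ _ _ hv)
    _ = ENNReal.ofReal (κ ^ 2) * μHE[2] (⋃ i ∈ C.good, S ∩ C.O i) := by
        rw [← Finset.mul_sum, measure_biUnion_finset]
        · intro i _ j _ hij
          exact disjoint_left.2 fun x hx hx' => hij (C.disj i j x hx.1 hx.2 hx'.2)
        · exact fun i _ => hS.inter (C.O_open i).measurableSet
    _ ≤ _ := by
        gcongr
        exact iUnion₂_subset fun i _ => inter_subset_left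

theorem upper_bound {D : ℝ} {b : E3} (hb : b ∈ S) (hD : ∀ x ∈ S, ∀ y ∈ S, Conn S x y D ∅) :
    ∃ M : ℝ, ∀ᶠ ε in 𝓝[>] (0 : ℝ),
      shortestDense S ε ≤ ENNReal.ofReal ((C.goodArea + δ) / (2 * ε) + M) := by
  let bb : ι → ℝ := fun i => ‖shear (C.a i) (C.s i) (C.h i) (0, 1)‖
  refine ⟨D + ∑ i, (2 * C.η * (|C.s i| * C.a i + bb i) + C.η * C.a i + 2 * D), ?_⟩
  have hev : ∀ i, ∀ᶠ ε in 𝓝[>] (0 : ℝ), 2 * (2 * ε / C.h i) ≤ C.η ∧
      |C.s i| * (2 * ε / C.h i) ≤ C.η := by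
    intro i
    apply Filter.Eventually.filter_mono nhdsWithin_le_nhds
    have c1 : ContinuousAt (fun ε : ℝ => 2 * (2 * ε / C.h i)) 0 := by fun_prop
    have c2 : ContinuousAt (fun ε : ℝ => |C.s i| * (2 * ε / C.h i)) 0 := by fun_prop
    filter_upwards [c1.eventually_lt continuousAt_const (by simpa using C.η_pos),
      c2.eventually_lt continuousAt_const (by simpa using C.η_pos)] with ε h1 h2
    exact ⟨h1.le, h2.le⟩
  filter_upwards [eventually_all.2 hev, self_mem_nhdsWithin] with ε hε hε0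
  have hε0 : 0 < ε := hε0
  have hz := fun i => zigzag (C.cont i) (C.mem i) (C.a_pos i) (C.h_pos i)
    (σ := 2 * ε / C.h i) (by have := C.h_pos i; positivity) (hε i).1 (hε i).2 (C.upper i)
  choose x hx y hy T hT hdense using hz
  have hc := conn_biUnion hb hD Finset.univ _ T fun i _ => ⟨x i, hx i, y i, hy i, hT i⟩
  obtain ⟨h0, γ, hγc, hγm, -, -, hlen, hTγ⟩ := hc
  have hd : IsEpsDense S ε γ := by
    intro z hz
    obtain ⟨i, u, hu, rfl⟩ := C.cover z hz
    obtain ⟨p, hp, hcon⟩ := hdense i u hu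
    obtain ⟨t, ht, rfl⟩ := hTγ (mem_iUnion₂.2 ⟨i, Finset.mem_univ _, hp⟩)
    refine ⟨t, ht, hcon.intrinsicDist_le.trans (le_of_eq ?_)⟩
    congr 1
    have := (C.h_pos i).ne'
    field_simp
  refine (iInf₂_le γ ⟨⟨hγc.continuousOn, hγm⟩, hlen.trans_lt ENNReal.ofReal_lt_top, hd⟩).trans
    (hlen.trans (ENNReal.ofReal_le_ofReal ?_))
  have h1 : (∑ i, C.a i * C.h i * C.η ^ 2) / (2 * ε) ≤ (C.goodArea + δ) / (2 * ε) := by
    gcongr; exact C.total_le
  rw [Finset.sum_div] at h1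
  have h2 : ∑ i, ((C.η / (2 * ε / C.h i) + 1) * ((C.η + |C.s i| * (2 * ε / C.h i)) * C.a i +
      2 * ε / C.h i * bb i) + 2 * D) ≤ ∑ i, (C.a i * C.h i * C.η ^ 2 / (2 * ε) +
        (2 * C.η * (|C.s i| * C.a i + bb i) + C.η * C.a i + 2 * D)) := by
    refine Finset.sum_le_sum fun i _ => ?_
    have hh := C.h_pos i
    have ha := C.a_pos i
    have hη := C.η_pos
    have hb0 : 0 ≤ bb i := norm_nonneg _
    have hσ := (hε i).1
    set σ := 2 * ε / C.h i with hσd
    have hσ0 : 0 < σ := by positivity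
    have e1 : C.a i * C.h i * C.η ^ 2 / (2 * ε) = C.η / σ * (C.η * C.a i) := by
      rw [hσd]; field_simp
    have e2 : (C.η / σ + 1) * ((C.η + |C.s i| * σ) * C.a i + σ * bb i) =
        C.η / σ * (C.η * C.a i) + (C.η + σ) * (|C.s i| * C.a i + bb i) + C.η * C.a i := by
      field_simp; ring
    rw [e1, e2]
    have : (C.η + σ) * (|C.s i| * C.a i + bb i) ≤ 2 * C.η * (|C.s i| * C.a i + bb i) := by
      gcongr; linarith
    linarith
  rw [Finset.sum_add_distrib (f := fun i => C.a i * C.h i * C.η ^ 2 / (2 * ε))] at h2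
  linarith

theorem discretize {γ : ℝ → E3} (hγ : ContinuousOn γ (Icc 0 1)) {τ : ℝ} (hτ : 0 < τ) :
    ∃ n : ℕ, 0 < n ∧ (∀ k < n, ‖γ (((k + 1 : ℕ) : ℝ) / n) - γ (k / n)‖ ≤ τ) ∧
      ∀ t ∈ Icc (0 : ℝ) 1, ∃ k ≤ n, ‖γ t - γ (k / n)‖ ≤ τ := by
  have hu := isCompact_Icc.uniformContinuousOn_of_continuous hγ
  obtain ⟨r, hr, hr'⟩ := Metric.uniformContinuousOn_iff.1 hu τ hτ
  obtain ⟨m, hm⟩ := exists_nat_one_div_lt hr
  have hn : (0 : ℝ) < ((m + 1 : ℕ) : ℝ) := by positivity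
  have hm' : 1 / ((m + 1 : ℕ) : ℝ) < r := by push_cast; exact hm
  have hmem : ∀ k ≤ m + 1, (k : ℝ) / ((m + 1 : ℕ) : ℝ) ∈ Icc (0 : ℝ) 1 := fun k hk =>
    ⟨by positivity, (div_le_one hn).2 (by exact_mod_cast hk)⟩
  refine ⟨m + 1, by omega, fun k hk => ?_, fun t ht => ?_⟩
  · rw [← dist_eq_norm]
    refine (hr' _ (hmem _ hk) _ (hmem _ hk.le) ?_).le
    rw [Real.dist_eq, ← sub_div]
    have : ((k + 1 : ℕ) : ℝ) - k = 1 := by push_cast; ring
    rw [this, abs_of_pos (by positivity)]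
    exact hm'
  · have h0 : 0 ≤ t * ((m + 1 : ℕ) : ℝ) := mul_nonneg ht.1 hn.le
    have hk : ⌊t * ((m + 1 : ℕ) : ℝ)⌋₊ ≤ m + 1 := by
      apply Nat.floor_le_of_le
      exact mul_le_of_le_one_left hn.le ht.2
    refine ⟨_, hk, ?_⟩
    rw [← dist_eq_norm]
    refine (hr' _ ht _ (hmem _ hk) ?_).le
    have h1 := Nat.floor_le h0
    have h2 := Nat.lt_floor_add_one (t * ((m + 1 : ℕ) : ℝ))
    rw [Real.dist_eq]
    refine lt_of_le_of_lt ?_ hm'
    rw [abs_le]
    constructor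
    · rw [← div_le_iff₀ hn] at h1
      have : 0 < 1 / ((m + 1 : ℕ) : ℝ) := by positivity
      linarith
    · rw [sub_le_iff_le_add, ← add_div, le_div_iff₀ hn]
      linarith

theorem lower_bound (hκ : 1 < κ) :
    ∀ᶠ ε in 𝓝[>] (0 : ℝ), ∀ γ : ℝ → E3, IsPathIn S γ → len γ < ⊤ → IsEpsDense S ε γ →
      C.goodArea ≤ κ ^ 2 * (C.good.card * (Real.pi * (κ ^ 2 * ε) ^ 2) +
        2 * (κ ^ 2 * ε) * κ * (len γ).toReal) := by
  classical
  have hη := C.η_pos
  have hκ0 : 0 < κ := by linarith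
  set θ := (C.η - C.η / κ) / 2 with hθ
  have hθ0 : 0 < θ := by
    have : C.η / κ < C.η := div_lt_self hη hκ
    rw [hθ]; linarith
  have hηκ : 0 < C.η / κ := by positivity
  let Q : ι → Set (ℝ × ℝ) := fun i => sq (C.x0 i + θ) (C.y0 i + θ) (C.η / κ)
  have hQ : ∀ i, Q i ⊆ openSq (C.x0 i) (C.y0 i) C.η := fun i =>
    prod_mono (Icc_subset_Ioo (by linarith) (by linarith))
      (Icc_subset_Ioo (by linarith) (by linarith))
  have hmar : ∀ i, ∃ m > 0, cthickening m (C.F i '' Q i) ⊆ C.O i := by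
    intro i
    refine IsCompact.exists_cthickening_subset_open
      ((isCompact_Icc.prod isCompact_Icc).image (C.cont i)) (C.O_open i) ?_
    refine (image_mono (hQ i)).trans ?_
    rw [← C.O_eq]; exact inter_subset_right
  choose m hm0 hm using hmar
  have hev : ∀ i, ∀ᶠ ε in 𝓝[>] (0 : ℝ), κ ^ 2 * ε + κ * ε ≤ m i := by
    intro i
    apply Filter.Eventually.filter_mono nhdsWithin_le_nhds
    have c1 : ContinuousAt (fun ε : ℝ => κ ^ 2 * ε + κ * ε) 0 := by fun_prop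
    filter_upwards [c1.eventually_lt continuousAt_const (by simpa using hm0 i)] with ε h1
    exact h1.le
  filter_upwards [eventually_all.2 hev, self_mem_nhdsWithin] with ε hε hε0 γ hγ hlen hdense
  have hε0 : 0 < ε := hε0
  obtain ⟨n, hn, hstep, hnear⟩ := discretize hγ.1 (τ := (κ - 1) * ε) (by
    have : 0 < κ - 1 := by linarith
    positivity)
  let p : ℕ → E3 := fun k => γ (k / n)
  have hn' : (0 : ℝ) < n := by exact_mod_cast hn
  have hpS : ∀ k ≤ n, p k ∈ S := fun k hk =>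
    hγ.2 ⟨by positivity, (div_le_one hn').2 (by exact_mod_cast hk)⟩
  have hsum : ∑ k ∈ Finset.range n, ‖p (k + 1) - p k‖ ≤ (len γ).toReal := by
    have := eVariationOn.sum_le_of_monotoneOn_Iic (f := γ) (s := Icc (0 : ℝ) 1) (n := n)
      (u := fun k : ℕ => (k : ℝ) / n) (fun i _ j _ hij => by dsimp only; gcongr)
      (fun k hk => ⟨by positivity, (div_le_one hn').2 (by exact_mod_cast hk)⟩)
    rw [← ENNReal.ofReal_le_iff_le_toReal hlen.ne,
      ENNReal.ofReal_sum_of_nonneg fun _ _ => norm_nonneg _]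
    refine le_trans (le_of_eq ?_) this
    refine Finset.sum_congr rfl fun k _ => ?_
    rw [edist_dist, dist_eq_norm]
  set ρ := κ ^ 2 * ε with hρ
  have hρ0 : 0 < ρ := by positivity
  have hcell : ∀ i ∈ C.good, C.a i * C.h i * (C.η / κ) ^ 2 ≤ Real.pi * ρ ^ 2 +
      ∑ k ∈ Finset.range n, if p k ∈ C.O i then 2 * ρ * κ * ‖p (k + 1) - p k‖ else 0 := by
    intro i hi
    let B := shear (C.a i) (C.s i) (C.h i)
    let W := openSq (C.x0 i) (C.y0 i) C.η
    let u : ℕ → ℝ × ℝ := fun k => Function.invFunOn (C.F i) W (p k)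
    have hu : ∀ k ≤ n, p k ∈ C.O i → u k ∈ W ∧ C.F i (u k) = p k := by
      intro k hk hO
      have : p k ∈ C.F i '' W := by rw [← C.O_eq]; exact ⟨hpS k hk, hO⟩
      exact ⟨Function.invFunOn_mem this, Function.invFunOn_eq this⟩
    have hWs := openSq_subset_sq (C.x0 i) (C.y0 i) C.η
    have hclose : ∀ v ∈ Q i, ∀ x, ‖C.F i v - x‖ ≤ ρ + κ * ε → x ∈ C.O i := by
      intro v hv x hx
      apply hm i
      refine mem_cthickening_of_dist_le x (C.F i v) _ _ ⟨v, hv, rfl⟩ ?_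
      rw [dist_comm, dist_eq_norm]
      exact hx.trans (hε i)
    have key := disc_chain (n := n) (fun k => B (u k)) (fun k => p k ∈ C.O i) hρ0.le
      (E := B '' Q i) ?_ ?_
    · rw [volume_shear_image _ (C.a_pos i).le (C.h_pos i).le, volume_sq _ _ hηκ.le,
        ← ENNReal.ofReal_mul (mul_pos (C.a_pos i) (C.h_pos i)).le,
        ENNReal.ofReal_le_ofReal_iff
          (add_nonneg (by positivity) (Finset.sum_nonneg fun _ _ => by positivity))] at key
      refine key.trans ?_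
      gcongr
      rw [Finset.sum_filter]
      refine Finset.sum_le_sum fun k hk => ?_
      have hk' := Finset.mem_range.1 hk
      by_cases h1 : p k ∈ C.O i
      · by_cases h2 : p (k + 1) ∈ C.O i
        · rw [if_pos ⟨h1, h2⟩, if_pos h1, ← map_sub, mul_assoc (2 * ρ)]
          obtain ⟨a1, a2⟩ := hu k hk'.le h1
          obtain ⟨b1, b2⟩ := hu (k + 1) hk' h2
          have := C.lower i hi _ (hWs b1) _ (hWs a1)
          rw [a2, b2] at this
          gcongr
        · rw [if_neg (fun h => h2 h.2), if_pos h1]; positivity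
      · rw [if_neg (fun h => h1 h.1), if_neg h1]
    · rintro _ ⟨v, hv, rfl⟩
      obtain ⟨t, ht, hd⟩ := hdense _ (C.mem i v)
      have hd' : ‖C.F i v - γ t‖ ≤ ε := by
        have := (edist_le_intrinsicDist S _ _).trans hd
        rwa [edist_dist, ENNReal.ofReal_le_ofReal_iff hε0.le, dist_eq_norm] at this
      obtain ⟨k, hk, hk'⟩ := hnear t ht
      have h3 : ‖C.F i v - p k‖ ≤ κ * ε := by
        have := norm_sub_le_norm_sub_add_norm_sub (C.F i v) (γ t) (p k)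
        simp only [p] at this ⊢
        linarith
      have hO := hclose v hv (p k) (by linarith)
      refine ⟨k, hk, hO, ?_⟩
      obtain ⟨a1, a2⟩ := hu k hk hO
      rw [mem_closedBall, dist_eq_norm, ← map_sub]
      have := C.lower i hi _ (hWs (hQ i hv)) _ (hWs a1)
      rw [a2] at this
      refine this.trans ?_
      rw [hρ, _root_.sq, mul_assoc]
      gcongr
    · rintro _ ⟨v, hv, rfl⟩ k hk hO hz
      obtain ⟨a1, a2⟩ := hu (k + 1) hk hO
      rw [mem_closedBall, dist_eq_norm, ← map_sub] at hz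
      have h1 := C.upper i _ (sq_subset_bigSq hη (hWs (hQ i hv))) _ (sq_subset_bigSq hη (hWs a1))
      rw [a2] at h1
      apply hclose v hv
      have h2 := norm_sub_le_norm_sub_add_norm_sub (C.F i v) (p (k + 1)) (p k)
      have h3 : ‖p (k + 1) - p k‖ ≤ (κ - 1) * ε := hstep k hk
      linarith
  have hall := Finset.sum_le_sum hcell
  rw [Finset.sum_add_distrib, Finset.sum_const, nsmul_eq_mul, Finset.sum_comm] at hall
  have h2 : ∑ k ∈ Finset.range n, ∑ i ∈ C.good,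
      (if p k ∈ C.O i then 2 * ρ * κ * ‖p (k + 1) - p k‖ else 0) ≤
      ∑ k ∈ Finset.range n, 2 * ρ * κ * ‖p (k + 1) - p k‖ := by
    refine Finset.sum_le_sum fun k hk => ?_
    rw [← Finset.sum_filter, Finset.sum_const, nsmul_eq_mul]
    have : ((C.good.filter fun i => p k ∈ C.O i).card : ℝ) ≤ 1 := by
      have : (C.good.filter fun i => p k ∈ C.O i).card ≤ 1 := by
        refine Finset.card_le_one.2 fun i hi j hj => ?_
        exact C.disj i j _ (hpS k (Finset.mem_range.1 hk).le) (Finset.mem_filter.1 hi).2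
          (Finset.mem_filter.1 hj).2
      exact_mod_cast this
    exact mul_le_of_le_one_left (by positivity) this
  rw [← Finset.mul_sum] at h2
  have h3 : 2 * ρ * κ * ∑ k ∈ Finset.range n, ‖p (k + 1) - p k‖ ≤ 2 * ρ * κ * (len γ).toReal := by
    gcongr
  have h4 : C.goodArea = κ ^ 2 * ∑ i ∈ C.good, C.a i * C.h i * (C.η / κ) ^ 2 := by
    rw [goodArea, Finset.mul_sum]
    refine Finset.sum_congr rfl fun i _ => ?_
    field_simp
  rw [h4]
  gcongr
  linarith

end Cells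

end Pool.Agent.Lib.MP_523900_gt
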