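import Pool.Agent.Lib.MP_523900_gt.Strict

open Set MeasureTheory Metric Filter
open scoped ENNReal NNReal Topology

namespace Pool.Agent.Lib.MP_523900_gt

/-- Properties of the gauge of a convex body containing the origin in its interior. -/
structure IsGauge (g : E3 → ℝ) (r R : ℝ) : Prop where
  r_pos : 0 < r
  R_pos : 0 < R
  convex : ConvexOn ℝ univ g
  homog : ∀ t, 0 ≤ t → ∀ x, g (t • x) = t * g x
  lower : ∀ x, ‖x‖ ≤ R * g x
  upper : ∀ x, r * g x ≤ ‖x‖
  lip : ∀ x y, |g x - g y| ≤ ‖x - y‖ / r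

/-- Linear part of the parametrization of a face of the cube. -/
noncomputable def faceL (k : Fin 3) : ℝ × ℝ →L[ℝ] E3 :=
  (ContinuousLinearMap.fst ℝ ℝ ℝ).smulRight (EuclideanSpace.single (k + 1) (1 : ℝ)) +
    (ContinuousLinearMap.snd ℝ ℝ ℝ).smulRight (EuclideanSpace.single (k + 2) (1 : ℝ))

/-- Parametrization of the plane of a face of the cube. -/
noncomputable def face (k : Fin 3) (σ : ℝ) (u : ℝ × ℝ) : E3 :=
  EuclideanSpace.single k σ + faceL k u

theorem faceL_zero (k : Fin 3) (u : ℝ × ℝ) : faceL k u k = 0 := by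
  fin_cases k <;> simp [faceL]
theorem faceL_one (k : Fin 3) (u : ℝ × ℝ) : faceL k u (k + 1) = u.1 := by
  fin_cases k <;> simp [faceL]
theorem faceL_two (k : Fin 3) (u : ℝ × ℝ) : faceL k u (k + 2) = u.2 := by
  fin_cases k <;> simp [faceL]
theorem face_zero (k : Fin 3) (σ : ℝ) (u : ℝ × ℝ) : face k σ u k = σ := by
  simp [face, faceL_zero]
theorem face_one (k : Fin 3) (σ : ℝ) (u : ℝ × ℝ) : face k σ u (k + 1) = u.1 := by
  rw [face, PiLp.add_apply, faceL_one]; fin_cases k <;> simp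
theorem face_two (k : Fin 3) (σ : ℝ) (u : ℝ × ℝ) : face k σ u (k + 2) = u.2 := by
  rw [face, PiLp.add_apply, faceL_two]; fin_cases k <;> simp

theorem ext_rot (k : Fin 3) {x y : E3} (h0 : x k = y k) (h1 : x (k + 1) = y (k + 1))
    (h2 : x (k + 2) = y (k + 2)) : x = y := by
  ext i
  fin_cases k <;> fin_cases i <;> first | exact h0 | exact h1 | exact h2

theorem norm_sq_rot (k : Fin 3) (x : E3) : ‖x‖ ^ 2 = x k ^ 2 + x (k + 1) ^ 2 + x (k + 2) ^ 2 := by
  rw [EuclideanSpace.real_norm_sq_eq, Fin.sum_univ_three]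
  fin_cases k
  · rfl
  · show _ = x 1 ^ 2 + x 2 ^ 2 + x 0 ^ 2
    ring
  · show _ = x 2 ^ 2 + x 0 ^ 2 + x 1 ^ 2
    ring

theorem continuous_face (k : Fin 3) (σ : ℝ) : Continuous (face k σ) :=
  continuous_const.add (faceL k).continuous

theorem face_sub (k : Fin 3) (σ : ℝ) (u v : ℝ × ℝ) : face k σ u - face k σ v = faceL k (u - v) := by
  rw [face, face, map_sub]; abel

theorem norm_faceL (k : Fin 3) (w : ℝ × ℝ) : ‖faceL k w‖ = ‖shear 1 0 1 w‖ := by
  apply (sq_eq_sq₀ (norm_nonneg _) (norm_nonneg _)).1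
  rw [norm_sq_rot k, faceL_zero, faceL_one, faceL_two, norm_shear_sq]; ring

theorem one_le_norm_face (k : Fin 3) {σ : ℝ} (hσ : σ ^ 2 = 1) (u : ℝ × ℝ) : 1 ≤ ‖face k σ u‖ := by
  apply (sq_le_sq₀ zero_le_one (norm_nonneg _)).1
  rw [norm_sq_rot k, face_zero, hσ]
  nlinarith [sq_nonneg (face k σ u (k + 1)), sq_nonneg (face k σ u (k + 2))]

/-- Radial projection on the level set of the gauge. -/
noncomputable def radial (c : E3) (g : E3 → ℝ) (x : E3) : E3 := c + (g x)⁻¹ • x

/-- The chart of the surface over a face of the cube. -/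
noncomputable def chart (c : E3) (g : E3 → ℝ) (k : Fin 3) (σ : ℝ) (u : ℝ × ℝ) : E3 :=
  radial c g (face k σ u)

namespace IsGauge

variable {g : E3 → ℝ} {r R : ℝ} (H : IsGauge g r R) (c : E3)
include H

theorem pos {x : E3} (hx : 1 ≤ ‖x‖) : 0 < g x := by
  have := H.lower x
  by_contra h
  have : R * g x ≤ 0 := mul_nonpos_of_nonneg_of_nonpos H.R_pos.le (not_lt.1 h)
  linarith

theorem continuous : Continuous g := by
  refine (LipschitzWith.of_dist_le_mul (K := (1 / r).toNNReal) fun x y => ?_).continuous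
  rw [Real.coe_toNNReal _ (by have := H.r_pos; positivity), Real.dist_eq, dist_eq_norm]
  exact (H.lip x y).trans (le_of_eq (by ring))

theorem radial_mem {x : E3} (hx : 1 ≤ ‖x‖) : g (radial c g x - c) = 1 := by
  have := H.pos hx
  rw [radial, add_sub_cancel_left, H.homog _ (by positivity), inv_mul_cancel₀ this.ne']

theorem radial_lip {x y : E3} (hx : 1 ≤ ‖x‖) (hy : 1 ≤ ‖y‖) :
    ‖radial c g x - radial c g y‖ ≤ R * (1 + R / r) * ‖x - y‖ := by
  have gx := H.pos hx
  have gy := H.pos hy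
  have hr := H.r_pos
  have hR := H.R_pos
  have e : radial c g x - radial c g y =
      (g x)⁻¹ • ((x - y) + ((g y - g x) / g y) • y) := by
    rw [radial, radial, add_sub_add_left_eq_sub, smul_add, smul_sub, smul_smul]
    have : (g x)⁻¹ * ((g y - g x) / g y) = (g x)⁻¹ - (g y)⁻¹ := by field_simp
    rw [this, sub_smul]; abel
  have h1 : (g x)⁻¹ ≤ R := by
    rw [inv_le_iff_one_le_mul₀ gx]; exact hx.trans (H.lower x)
  have h2 : ‖((g y - g x) / g y) • y‖ ≤ R / r * ‖x - y‖ := by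
    rw [norm_smul, Real.norm_eq_abs, abs_div, abs_of_pos gy, abs_sub_comm]
    calc |g x - g y| / g y * ‖y‖ ≤ (‖x - y‖ / r) / g y * (R * g y) := by
          gcongr
          · exact H.lip x y
          · exact H.lower y
      _ = _ := by field_simp
  rw [e, norm_smul, Real.norm_of_nonneg (by positivity), mul_assoc]
  gcongr
  refine (norm_add_le _ _).trans ?_
  linarith

theorem chart_mem (k : Fin 3) {σ : ℝ} (hσ : σ ^ 2 = 1) (u : ℝ × ℝ) :
    g (chart c g k σ u - c) = 1 := H.radial_mem c (one_le_norm_face k hσ u)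

theorem continuous_chart (k : Fin 3) {σ : ℝ} (hσ : σ ^ 2 = 1) : Continuous (chart c g k σ) := by
  have h1 : Continuous fun u => g (face k σ u) := H.continuous.comp (continuous_face k σ)
  exact continuous_const.add
    ((h1.inv₀ fun u => (H.pos (one_le_norm_face k hσ u)).ne').smul (continuous_face k σ))

theorem chart_lip (k : Fin 3) {σ : ℝ} (hσ : σ ^ 2 = 1) (u v : ℝ × ℝ) :
    ‖chart c g k σ u - chart c g k σ v‖ ≤
      ‖shear (R * (1 + R / r)) 0 (R * (1 + R / r)) (u - v)‖ := by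
  have hr := H.r_pos
  have hR := H.R_pos
  have := H.radial_lip c (one_le_norm_face k hσ u) (one_le_norm_face k hσ v)
  rw [face_sub, norm_faceL, ← norm_shear_mul (by positivity), mul_one] at this
  exact this

theorem ae_good {κ : ℝ} (hκ : 1 < κ) (k : Fin 3) {σ : ℝ} (hσ : σ ^ 2 = 1) :
    ∀ᵐ u, ∃ ρ > 0, GoodOn κ (chart c g k σ) u ρ := by
  let φ : ℝ × ℝ → ℝ := fun u => g (face k σ u)
  have hr := H.r_pos
  have hconv : ConvexOn ℝ univ φ := by
    refine ⟨convex_univ, fun u _ v _ a b ha hb hab => ?_⟩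
    have e : face k σ (a • u + b • v) = a • face k σ u + b • face k σ v := by
      simp only [face, map_add, map_smul, smul_add]
      have : EuclideanSpace.single k σ = a • EuclideanSpace.single k σ +
          b • EuclideanSpace.single k σ := by rw [← add_smul, hab, one_smul]
      conv_lhs => rw [this]
      abel
    simp only [φ, e]
    exact H.convex.2 (mem_univ _) (mem_univ _) ha hb hab
  have hlip : LipschitzWith (‖faceL k‖ / r).toNNReal φ := by
    refine LipschitzWith.of_dist_le_mul fun u v => ?_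
    rw [Real.coe_toNNReal _ (by positivity), Real.dist_eq, dist_eq_norm]
    refine (H.lip _ _).trans ?_
    rw [face_sub, div_mul_eq_mul_div]
    gcongr
    exact (faceL k).le_opNorm _
  filter_upwards [hlip.ae_differentiableAt (μ := volume)] with u hu
  have h1 := strict_of_convex hconv hu.hasFDerivAt
  have hpos : 0 < φ u := H.pos (one_le_norm_face k hσ u)
  have h2 := (hasStrictDerivAt_inv hpos.ne').comp_hasStrictFDerivAt u h1
  have h3 : HasStrictFDerivAt (face k σ) (faceL k) u :=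
    (faceL k).hasStrictFDerivAt.const_add _
  have h4 := (h2.smul h3).const_add c
  refine goodOn_of_strict hκ h4 fun w hw => ?_
  simp only [add_apply, smul_apply,
    ContinuousLinearMap.smulRight_apply, Function.comp_apply] at hw
  set l := (-(φ u ^ 2)⁻¹) • (fderiv ℝ φ u) w
  have e0 := congrArg (fun x : E3 => x k) hw
  have e1 := congrArg (fun x : E3 => x (k + 1)) hw
  have e2 := congrArg (fun x : E3 => x (k + 2)) hw
  simp only [PiLp.add_apply, PiLp.smul_apply, faceL_zero, faceL_one, faceL_two, face_zero,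
    face_one, face_two, smul_eq_mul, PiLp.zero_apply, mul_zero, zero_add] at e0 e1 e2
  have hσ0 : σ ≠ 0 := by rintro rfl; simp at hσ
  have hl : l = 0 := by simpa [hσ0] using e0
  rw [hl, zero_mul, add_zero] at e1 e2
  have hi : (φ u)⁻¹ ≠ 0 := inv_ne_zero hpos.ne'
  ext
  · simpa [hi] using e1
  · simpa [hi] using e2

theorem chart_eq {x : E3} (hx : g (x - c) = 1) (k : Fin 3) {σ : ℝ} (hσ : σ ^ 2 = 1)
    (ht : 0 < σ * (x - c) k) :
    chart c g k σ ((x - c) (k + 1) / (σ * (x - c) k), (x - c) (k + 2) / (σ * (x - c) k)) = x := by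
  set y := x - c with hy
  set t := σ * y k with htt
  have e : face k σ (y (k + 1) / t, y (k + 2) / t) = t⁻¹ • y := by
    apply ext_rot k
    · rw [face_zero, PiLp.smul_apply, smul_eq_mul, eq_comm, inv_mul_eq_iff_eq_mul₀ ht.ne', htt]
      linear_combination (-(y k)) * hσ
    · rw [face_one, PiLp.smul_apply, smul_eq_mul]; ring
    · rw [face_two, PiLp.smul_apply, smul_eq_mul]; ring
  rw [chart, radial, e, H.homog _ (by positivity), hx, mul_one, inv_inv, smul_smul,
    mul_inv_cancel₀ ht.ne', one_smul, hy]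
  abel

theorem chart_coord (k : Fin 3) {σ : ℝ} (hσ : σ ^ 2 = 1) (u : ℝ × ℝ) :
    ∃ t > 0, σ * (chart c g k σ u - c) k = t ∧ (chart c g k σ u - c) (k + 1) = u.1 * t ∧
      (chart c g k σ u - c) (k + 2) = u.2 * t := by
  have hpos := H.pos (one_le_norm_face k hσ u)
  refine ⟨(g (face k σ u))⁻¹, by positivity, ?_, ?_, ?_⟩ <;>
    rw [chart, radial, add_sub_cancel_left, PiLp.smul_apply, smul_eq_mul]
  · rw [face_zero]; linear_combination (g (face k σ u))⁻¹ * hσ
  · rw [face_one]; ring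
  · rw [face_two]; ring

/-- Every point of the surface lies over a face of the cube. -/
theorem exists_chart {x : E3} (hx : g (x - c) = 1) :
    ∃ (k : Fin 3) (σ : ℝ), (σ = 1 ∨ σ = -1) ∧ ∃ u ∈ Icc (-1 : ℝ) 1 ×ˢ Icc (-1 : ℝ) 1,
      chart c g k σ u = x := by
  obtain ⟨k, hk⟩ := Finite.exists_max fun i : Fin 3 => |(x - c) i|
  have hk0 : (x - c) k ≠ 0 := by
    intro h
    have : x - c = 0 := by
      ext i
      have := hk i
      rw [h, abs_zero] at this
      exact abs_nonpos_iff.1 this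
    have h0 := H.homog 0 le_rfl (x - c)
    rw [zero_smul, zero_mul, ← this, hx] at h0
    exact one_ne_zero h0
  have key : ∀ σ : ℝ, σ ^ 2 = 1 → σ * (x - c) k = |(x - c) k| →
      ∃ u ∈ Icc (-1 : ℝ) 1 ×ˢ Icc (-1 : ℝ) 1, chart c g k σ u = x := by
    intro σ hσ h
    have hp : 0 < |(x - c) k| := abs_pos.2 hk0
    refine ⟨_, ?_, H.chart_eq c hx k hσ (h ▸ hp)⟩
    rw [h]
    have h1 := abs_le.1 (hk (k + 1))
    have h2 := abs_le.1 (hk (k + 2))
    refine ⟨⟨?_, ?_⟩, ⟨?_, ?_⟩⟩
    · rw [le_div_iff₀ hp]; linarith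
    · rw [div_le_iff₀ hp]; linarith
    · rw [le_div_iff₀ hp]; linarith
    · rw [div_le_iff₀ hp]; linarith
  rcases le_total 0 ((x - c) k) with h | h
  · exact ⟨k, 1, Or.inl rfl, key 1 (by norm_num) (by rw [abs_of_nonneg h, one_mul])⟩
  · exact ⟨k, -1, Or.inr rfl, key (-1) (by norm_num) (by rw [abs_of_nonpos h]; ring)⟩

theorem conn_in_chart (k : Fin 3) {σ : ℝ} (hσ : σ ^ 2 = 1) {u v : ℝ × ℝ}
    (hu : u ∈ Icc (-1 : ℝ) 1 ×ˢ Icc (-1 : ℝ) 1) (hv : v ∈ Icc (-1 : ℝ) 1 ×ˢ Icc (-1 : ℝ) 1) :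
    Conn {x | g (x - c) = 1} (chart c g k σ u) (chart c g k σ v) (3 * (R * (1 + R / r))) ∅ := by
  have hr := H.r_pos
  have hR := H.R_pos
  have := conn_seg_shear (S := {x | g (x - c) = 1}) (H.continuous_chart c k hσ)
    (fun u => H.chart_mem c k hσ u) convex_univ
    (fun u _ v _ => H.chart_lip c k hσ u v) (mem_univ u) (mem_univ v)
  refine this.mono ?_ (empty_subset _)
  set M := R * (1 + R / r)
  have hM : 0 < M := by positivity
  apply (sq_le_sq₀ (norm_nonneg _) (by positivity)).1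
  rw [norm_shear_sq]
  simp only [Prod.fst_sub, Prod.snd_sub, zero_mul, add_zero, mul_pow]
  have h1 : (v.1 - u.1) ^ 2 ≤ 4 := by nlinarith [hu.1.1, hu.1.2, hv.1.1, hv.1.2]
  have h2 : (v.2 - u.2) ^ 2 ≤ 4 := by nlinarith [hu.2.1, hu.2.2, hv.2.1, hv.2.2]
  nlinarith [sq_nonneg M]

theorem conn_base {x : E3} (hx : g (x - c) = 1) :
    Conn {x | g (x - c) = 1} x (chart c g 0 1 (1, 1)) (6 * (R * (1 + R / r))) ∅ := by
  have hr := H.r_pos
  have hR := H.R_pos
  have h11 : ((1 : ℝ), (1 : ℝ)) ∈ Icc (-1 : ℝ) 1 ×ˢ Icc (-1 : ℝ) 1 := by norm_num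
  have h1m : ((1 : ℝ), (-1 : ℝ)) ∈ Icc (-1 : ℝ) 1 ×ˢ Icc (-1 : ℝ) 1 := by norm_num
  have hb : ∀ k, chart c g k 1 (1, 1) = chart c g 0 1 (1, 1) := by
    intro k
    have : ∀ k i, face k 1 (1, 1) i = 1 := by
      intro k i
      fin_cases k <;> fin_cases i <;> simp [face, faceL]
    unfold chart
    congr 1
    ext i
    rw [this, this]
  obtain ⟨k, σ, hσ | hσ, u, hu, rfl⟩ := H.exists_chart c hx
  · subst hσ
    rw [← hb k]
    refine (H.conn_in_chart c k (by norm_num) hu h11).mono ?_ subset_rfl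
    have : 0 < R * (1 + R / r) := by positivity
    linarith
  · subst hσ
    have e : chart c g k (-1) (1, 1) = chart c g (k + 1) 1 (1, -1) := by
      unfold chart
      congr 1
      ext i
      fin_cases k <;> fin_cases i <;> simp [face, faceL]
    have c1 := H.conn_in_chart c k (σ := -1) (by norm_num) hu h11
    have c2 := H.conn_in_chart c (k + 1) (σ := 1) (by norm_num) h1m h11
    rw [e] at c1
    rw [hb] at c2
    exact (c1.trans c2).mono (le_of_eq (by ring)) (empty_subset _)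

theorem conn_all {x y : E3} (hx : g (x - c) = 1) (hy : g (y - c) = 1) :
    Conn {x | g (x - c) = 1} x y (12 * (R * (1 + R / r))) ∅ :=
  ((H.conn_base c hx).trans (H.conn_base c hy).symm).mono (le_of_eq (by ring)) (empty_subset _)

end IsGauge

end Pool.Agent.Lib.MP_523900_gt
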