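import Pool.Agent.Lib.MP_523900_gt.Defs

open Set
open scoped ENNReal NNReal

namespace Pool.Agent.Lib.MP_523900_gt

/-- There is a path in `S` from `x` to `y`, of length at most `l`, whose trace contains `T`. -/
def Conn (S : Set E3) (x y : E3) (l : ℝ) (T : Set E3) : Prop :=
  0 ≤ l ∧ ∃ γ : ℝ → E3, Continuous γ ∧ MapsTo γ (Icc 0 1) S ∧ γ 0 = x ∧ γ 1 = y ∧
    len γ ≤ ENNReal.ofReal l ∧ T ⊆ γ '' Icc 0 1

theorem Conn.mono {S : Set E3} {x y : E3} {l l' : ℝ} {T T' : Set E3} (h : Conn S x y l T)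
    (hl : l ≤ l') (hT : T' ⊆ T) : Conn S x y l' T' := by
  obtain ⟨h0, γ, hc, hm, hx, hy, hlen, hT0⟩ := h
  exact ⟨h0.trans hl, γ, hc, hm, hx, hy, hlen.trans (ENNReal.ofReal_le_ofReal hl), hT.trans hT0⟩

theorem Conn.trans {S : Set E3} {x y z : E3} {l l' : ℝ} {T T' : Set E3} (h : Conn S x y l T)
    (h' : Conn S y z l' T') : Conn S x z (l + l') (T ∪ T') := by
  obtain ⟨h0, γ, hc, hm, hx, hy, hlen, hT⟩ := h
  obtain ⟨h0', γ', hc', hm', hx', hy', hlen', hT'⟩ := h'
  classical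
  let g : ℝ → E3 := fun t => if t ≤ 1 / 2 then γ (2 * t) else γ' (2 * t - 1)
  have hg1 : ∀ t, t ≤ 1 / 2 → g t = γ (2 * t) := fun t ht => by simp only [g, if_pos ht]
  have hg2 : ∀ t, 1 / 2 ≤ t → g t = γ' (2 * t - 1) := fun t ht => by
    rcases ht.eq_or_lt with h | h
    · subst h
      rw [hg1 _ le_rfl]; norm_num [hy, hx']
    · simp only [g, if_neg (not_le.mpr h)]
  refine ⟨add_nonneg h0 h0', g, ?_, ?_, ?_, ?_, ?_, ?_⟩
  · refine Continuous.if_le (by fun_prop) (by fun_prop) continuous_id continuous_const ?_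
    intro t ht
    have ht' : t = 1 / 2 := ht
    subst ht'
    norm_num [hy, hx']
  · intro t ht
    rcases le_total t (1 / 2) with h | h
    · rw [hg1 t h]; exact hm ⟨by linarith [ht.1], by linarith⟩
    · rw [hg2 t h]; exact hm' ⟨by linarith, by linarith [ht.2]⟩
  · rw [hg1 0 (by norm_num)]; simpa using hx
  · rw [hg2 1 (by norm_num)]; norm_num [hy']
  · have e1 : eVariationOn g (Icc 0 (1 / 2)) ≤ len γ := by
      have : EqOn g (γ ∘ fun t => 2 * t) (Icc 0 (1 / 2)) := fun t ht => hg1 t ht.2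
      rw [eVariationOn.eq_of_eqOn this]
      refine eVariationOn.comp_le_of_monotoneOn γ _ ?_ ?_
      · intro a _ b _ hab; dsimp only; linarith
      · intro t ht; exact ⟨by linarith [ht.1], by linarith [ht.2]⟩
    have e2 : eVariationOn g (Icc (1 / 2) 1) ≤ len γ' := by
      have : EqOn g (γ' ∘ fun t => 2 * t - 1) (Icc (1 / 2) 1) := fun t ht => hg2 t ht.1
      rw [eVariationOn.eq_of_eqOn this]
      refine eVariationOn.comp_le_of_monotoneOn γ' _ ?_ ?_
      · intro a _ b _ hab; dsimp only; linarith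
      · intro t ht; exact ⟨by linarith [ht.1], by linarith [ht.2]⟩
    have e3 := eVariationOn.Icc_add_Icc g (s := univ) (a := (0 : ℝ)) (b := 1 / 2) (c := 1)
      (by norm_num) (by norm_num) (mem_univ _)
    simp only [univ_inter] at e3
    unfold len
    rw [← e3, ENNReal.ofReal_add h0 h0']
    exact add_le_add (e1.trans hlen) (e2.trans hlen')
  · rintro p (hp | hp)
    · obtain ⟨t, ht, rfl⟩ := hT hp
      refine ⟨t / 2, ⟨by linarith [ht.1], by linarith [ht.2]⟩, ?_⟩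
      rw [hg1 _ (by linarith [ht.2])]; congr 1; ring
    · obtain ⟨t, ht, rfl⟩ := hT' hp
      refine ⟨(t + 1) / 2, ⟨by linarith [ht.1], by linarith [ht.2]⟩, ?_⟩
      rw [hg2 _ (by linarith [ht.1])]; congr 1; ring

theorem len_le_of_lipschitz {γ : ℝ → E3} {l : ℝ} (hl : 0 ≤ l)
    (h : ∀ s ∈ Icc (0 : ℝ) 1, ∀ t ∈ Icc (0 : ℝ) 1, ‖γ s - γ t‖ ≤ l * |s - t|) :
    len γ ≤ ENNReal.ofReal l := by
  have hL : LipschitzOnWith l.toNNReal γ (Icc 0 1) := by
    refine LipschitzOnWith.of_dist_le_mul fun s hs t ht => ?_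
    rw [dist_eq_norm, Real.dist_eq, Real.coe_toNNReal _ hl]
    exact h s hs t ht
  have h1 := hL.comp_eVariationOn_le (g := id) (s := Icc (0 : ℝ) 1) (mapsTo_id _)
  have h2 : eVariationOn (id : ℝ → ℝ) (Icc (0 : ℝ) 1) ≤ 1 := by
    have := MonotoneOn.eVariationOn_eq (f := (id : ℝ → ℝ)) (s := univ) (monotoneOn_id)
      (a := 0) (b := 1) (mem_univ _) (mem_univ _)
    rw [univ_inter] at this
    rw [this]; simp
  unfold len
  calc eVariationOn γ (Icc 0 1) = eVariationOn (γ ∘ id) (Icc 0 1) := rfl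
    _ ≤ l.toNNReal * eVariationOn (id : ℝ → ℝ) (Icc (0 : ℝ) 1) := h1
    _ ≤ l.toNNReal * 1 := by gcongr
    _ = ENNReal.ofReal l := by rw [mul_one]; rfl

/-- The image of a segment under a map that is Lipschitz for a seminorm-like function. -/
theorem conn_segment {V : Type*} [NormedAddCommGroup V] [NormedSpace ℝ V] {S : Set E3}
    {F : V → E3} (hF : Continuous F) {p q : V} (hS : MapsTo F (segment ℝ p q) S) {l : ℝ}
    (hl : 0 ≤ l)
    (h : ∀ s ∈ Icc (0 : ℝ) 1, ∀ t ∈ Icc (0 : ℝ) 1,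
      ‖F (p + s • (q - p)) - F (p + t • (q - p))‖ ≤ l * |s - t|) :
    Conn S (F p) (F q) l (F '' segment ℝ p q) := by
  refine ⟨hl, fun t => F (p + t • (q - p)), by fun_prop, ?_, by simp, by simp,
    len_le_of_lipschitz hl h, ?_⟩
  · intro t ht
    apply hS
    rw [segment_eq_image']
    exact ⟨t, ht, rfl⟩
  · rintro _ ⟨u, hu, rfl⟩
    rw [segment_eq_image'] at hu
    obtain ⟨t, ht, rfl⟩ := hu
    exact ⟨t, ht, rfl⟩

theorem Conn.intrinsicDist_le {S : Set E3} {x y : E3} {l : ℝ} {T : Set E3} (h : Conn S x y l T) :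
    intrinsicDist S x y ≤ ENNReal.ofReal l := by
  obtain ⟨-, γ, hc, hm, hx, hy, hlen, -⟩ := h
  exact (iInf₂_le γ ⟨⟨hc.continuousOn, hm⟩, hx, hy⟩).trans hlen

theorem edist_le_intrinsicDist (S : Set E3) (x y : E3) : edist x y ≤ intrinsicDist S x y := by
  refine le_iInf₂ fun γ hγ => ?_
  rw [← hγ.2.1, ← hγ.2.2]
  exact eVariationOn.edist_le γ ⟨le_rfl, zero_le_one⟩ ⟨zero_le_one, le_rfl⟩

/-- Finitely many pieces can be joined in one closed path, when the intrinsic diameter is bounded. -/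
theorem conn_biUnion {ι : Type*} {S : Set E3} {D : ℝ} {b : E3} (hb : b ∈ S)
    (hD : ∀ x ∈ S, ∀ y ∈ S, Conn S x y D ∅) (s : Finset ι) (l : ι → ℝ) (T : ι → Set E3)
    (h : ∀ i ∈ s, ∃ x ∈ S, ∃ y ∈ S, Conn S x y (l i) (T i)) :
    Conn S b b (D + ∑ i ∈ s, (l i + 2 * D)) (⋃ i ∈ s, T i) := by
  classical
  induction s using Finset.induction_on with
  | empty => simpa using hD b hb b hb
  | insert a s ha ih =>
    have ih' := ih fun i hi => h i (Finset.mem_insert_of_mem hi)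
    obtain ⟨x, hx, y, hy, hxy⟩ := h a (Finset.mem_insert_self _ _)
    have := ih'.trans (((hD b hb x hx).trans hxy).trans (hD y hy b hb))
    refine this.mono ?_ ?_
    · rw [Finset.sum_insert ha]; linarith
    · rw [Finset.set_biUnion_insert]
      rintro p (hp | hp)
      · exact Or.inr (Or.inl (Or.inr hp))
      · exact Or.inl hp

end Pool.Agent.Lib.MP_523900_gt
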