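import Mathlib

open Set
open scoped ENNReal

namespace Pool.Agent.Lib.MP_523900_gt

/-- Euclidean 3-space. -/
abbrev E3 : Type := EuclideanSpace ℝ (Fin 3)

/-- `γ`, restricted to the parameter interval `[0,1]`, is a continuous path lying in `S`. -/
def IsPathIn (S : Set E3) (γ : ℝ → E3) : Prop :=
  ContinuousOn γ (Icc 0 1) ∧ MapsTo γ (Icc 0 1) S

/-- The length of the path `γ` on `[0,1]`: its total variation. -/
noncomputable def len (γ : ℝ → E3) : ℝ≥0∞ := eVariationOn γ (Icc 0 1)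

/-- Intrinsic distance in `S`: the infimum of the lengths of paths in `S` from `x` to `y`. -/
noncomputable def intrinsicDist (S : Set E3) (x y : E3) : ℝ≥0∞ :=
  ⨅ (γ : ℝ → E3) (_ : IsPathIn S γ ∧ γ 0 = x ∧ γ 1 = y), len γ

/-- Every point of `S` is within intrinsic distance `ε` of some point of the path `γ`. -/
def IsEpsDense (S : Set E3) (ε : ℝ) (γ : ℝ → E3) : Prop :=
  ∀ x ∈ S, ∃ t ∈ Icc (0 : ℝ) 1, intrinsicDist S x (γ t) ≤ ENNReal.ofReal ε

/-- `L_S(ε)`: the infimum of the lengths of rectifiable `ε`-dense paths in `S`. -/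
noncomputable def shortestDense (S : Set E3) (ε : ℝ) : ℝ≥0∞ :=
  ⨅ (γ : ℝ → E3) (_ : IsPathIn S γ ∧ len γ < ⊤ ∧ IsEpsDense S ε γ), len γ

end Pool.Agent.Lib.MP_523900_gt
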