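import Pool.Agent.Lib.MP_523900_gt.Zigzag

open Set MeasureTheory Metric
open scoped ENNReal NNReal

namespace Pool.Agent.Lib.MP_523900_gt

theorem muHE_image_le {X Y : Type*} [EMetricSpace X] [MeasurableSpace X] [BorelSpace X]
    [EMetricSpace Y] [MeasurableSpace Y] [BorelSpace Y] {K : ℝ≥0} {f : X → Y} {s : Set X}
    (h : LipschitzOnWith K f s) : μHE[2] (f '' s) ≤ (K : ℝ≥0∞) ^ 2 * μHE[2] s := by
  have := h.hausdorffMeasure_image_le (d := ((2 : ℕ) : ℝ)) (by positivity)
  simp only [Measure.euclideanHausdorffMeasure_def, Measure.smul_apply, ENNReal.smul_def,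
    smul_eq_mul]
  rw [ENNReal.rpow_natCast] at this
  rw [mul_left_comm]
  gcongr

theorem muHE_complex : (μHE[2] : Measure ℂ) = volume := by
  have := InnerProductSpace.euclideanHausdorffMeasure_eq_volume (V := ℂ)
  rwa [Complex.finrank_real_complex] at this

theorem disc_diff_base {ρ d : ℝ} (hρ : 0 ≤ ρ) (hd : 0 ≤ d) :
    volume (closedBall (d * Complex.I : ℂ) ρ \ closedBall 0 ρ) ≤ ENNReal.ofReal (2 * ρ * d) := by
  let c : ℝ → ℝ := fun x => √(ρ ^ 2 - x ^ 2)
  have hc : Measurable c := by fun_prop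
  let R : Set (ℝ × ℝ) := {p | p.1 ∈ Icc (-ρ) ρ ∧ p.2 ∈ Ioc (c p.1) (c p.1 + d)}
  have hR : MeasurableSet R :=
    measurableSet_region_between_oc hc (hc.add_const d) measurableSet_Icc
  have hsub : closedBall (d * Complex.I : ℂ) ρ \ closedBall 0 ρ ⊆
      Complex.measurableEquivRealProd ⁻¹' R := by
    rintro z ⟨h1, h2⟩
    rw [mem_closedBall, dist_eq_norm] at h1
    rw [mem_closedBall, dist_zero_right, not_le] at h2
    have h1' : z.re ^ 2 + (z.im - d) ^ 2 ≤ ρ ^ 2 := by
      have := pow_le_pow_left₀ (norm_nonneg _) h1 2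
      rw [Complex.sq_norm, Complex.normSq_apply] at this
      simp at this
      nlinarith
    have h2' : ρ ^ 2 < z.re ^ 2 + z.im ^ 2 := by
      have := pow_lt_pow_left₀ h2 hρ (two_ne_zero)
      rw [Complex.sq_norm, Complex.normSq_apply] at this
      nlinarith
    have hx : z.re ^ 2 ≤ ρ ^ 2 := by nlinarith [sq_nonneg (z.im - d)]
    have hx' := abs_le_of_sq_le_sq' hx hρ
    have h3 : |z.im - d| ≤ c z.re := Real.abs_le_sqrt (by linarith)
    have h4 : c z.re < |z.im| := by
      rw [← Real.sqrt_sq_eq_abs]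
      exact Real.sqrt_lt_sqrt (by linarith) (by linarith)
    have h3' := abs_le.1 h3
    refine ⟨⟨hx'.1, hx'.2⟩, ?_, ?_⟩
    · show c z.re < z.im
      rcases lt_abs.1 h4 with h | h
      · exact h
      · linarith
    · show z.im ≤ c z.re + d
      linarith
  refine (measure_mono hsub).trans ?_
  rw [Complex.volume_preserving_equiv_real_prod.measure_preimage_equiv, Measure.volume_eq_prod,
    Measure.prod_apply hR]
  have : ∀ x, volume (Prod.mk x ⁻¹' R) = (Icc (-ρ) ρ).indicator (fun _ => ENNReal.ofReal d) x := by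
    intro x
    by_cases hx : x ∈ Icc (-ρ) ρ
    · have : Prod.mk x ⁻¹' R = Ioc (c x) (c x + d) := by
        ext y; simp only [R, mem_preimage, mem_ofPred_eq, hx, true_and]
      rw [this, indicator_of_mem hx, Real.volume_Ioc]; congr 1; ring
    · have : Prod.mk x ⁻¹' R = ∅ := by
        ext y; simp only [R, mem_preimage, mem_ofPred_eq, hx, false_and, mem_empty_iff_false]
      rw [this, indicator_of_notMem hx, measure_empty]
  simp_rw [this]
  rw [lintegral_indicator measurableSet_Icc, setLIntegral_const, Real.volume_Icc,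
    ← ENNReal.ofReal_mul hd]
  apply le_of_eq; congr 1; ring

theorem disc_diff (p q : ℂ) {ρ : ℝ} (hρ : 0 ≤ ρ) :
    volume (closedBall q ρ \ closedBall p ρ) ≤ ENNReal.ofReal (2 * ρ * ‖q - p‖) := by
  rcases eq_or_ne q p with rfl | hne
  · simp
  have hd : 0 < ‖q - p‖ := norm_pos_iff.2 (sub_ne_zero.2 hne)
  set d := ‖q - p‖ with hdd
  have hdc : (d : ℂ) ≠ 0 := by exact_mod_cast hd.ne'
  let w : ℂ := (q - p) / (d * Complex.I)
  have hw : ‖w‖ = 1 := by
    simp only [w, norm_div, norm_mul, Complex.norm_I, Complex.norm_real, mul_one,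
      Real.norm_of_nonneg hd.le, ← hdd]
    exact div_self hd.ne'
  have hw0 : w ≠ 0 := by rintro h; simp [h] at hw
  let e : ℂ → ℂ := fun z => p + w * z
  have he : Isometry e := Isometry.of_dist_eq fun z z' => by
    simp only [e, dist_eq_norm]
    rw [show p + w * z - (p + w * z') = w * (z - z') by ring, norm_mul, hw, one_mul]
  have heq : e (d * Complex.I) = q := by
    simp only [e, w]
    have := Complex.I_ne_zero
    field_simp
    ring
  have he0 : e 0 = p := by simp [e]
  have hsub : closedBall q ρ \ closedBall p ρ ⊆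
      e '' (closedBall (d * Complex.I : ℂ) ρ \ closedBall 0 ρ) := by
    rintro z ⟨h1, h2⟩
    have hz : e ((z - p) / w) = z := by simp only [e]; field_simp; ring
    refine ⟨(z - p) / w, ⟨?_, ?_⟩, hz⟩
    · rw [mem_closedBall, ← he.dist_eq, hz, heq]; exact h1
    · rw [mem_closedBall, ← he.dist_eq, hz, he0]; exact h2
  refine (measure_mono hsub).trans ?_
  rw [← muHE_complex, he.euclideanHausdorffMeasure_image, muHE_complex]
  exact disc_diff_base hρ hd.le

theorem disc_chain {n : ℕ} (u : ℕ → ℂ) (J : ℕ → Prop) [DecidablePred J] {ρ : ℝ} (hρ : 0 ≤ ρ)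
    {E : Set ℂ} (h1 : ∀ z ∈ E, ∃ i ≤ n, J i ∧ z ∈ closedBall (u i) ρ)
    (h2 : ∀ z ∈ E, ∀ i < n, J (i + 1) → z ∈ closedBall (u (i + 1)) ρ → J i) :
    volume E ≤ ENNReal.ofReal (Real.pi * ρ ^ 2 +
      ∑ i ∈ (Finset.range n).filter (fun i => J i ∧ J (i + 1)), 2 * ρ * ‖u (i + 1) - u i‖) := by
  classical
  have hsub : E ⊆ closedBall (u 0) ρ ∪ ⋃ i ∈ (Finset.range n).filter (fun i => J i ∧ J (i + 1)),
      (closedBall (u (i + 1)) ρ \ closedBall (u i) ρ) := by
    intro z hz
    have hex := h1 z hz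
    obtain ⟨hi1, hi2, hi3⟩ := Nat.find_spec hex
    have hmin := fun m => Nat.find_min hex (m := m)
    generalize Nat.find hex = k at hi1 hi2 hi3 hmin
    rcases k with _ | k
    · exact Or.inl hi3
    · right
      have hk : J k := h2 z hz k (by omega) hi2 hi3
      simp only [mem_iUnion]
      refine ⟨k, Finset.mem_filter.2 ⟨Finset.mem_range.2 (by omega), hk, hi2⟩, hi3, fun h => ?_⟩
      exact hmin k (by omega) ⟨by omega, hk, h⟩
  refine (measure_mono hsub).trans ((measure_union_le _ _).trans ?_)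
  rw [ENNReal.ofReal_add (by positivity) (Finset.sum_nonneg fun i _ => by positivity),
    ENNReal.ofReal_sum_of_nonneg (fun i _ => by positivity)]
  gcongr
  · rw [Complex.volume_closedBall, ENNReal.ofReal_mul Real.pi_pos.le, ENNReal.ofReal_pow hρ,
      mul_comm]
    apply le_of_eq
    congr 1
    rw [← NNReal.coe_real_pi, ENNReal.ofReal_coe_nnreal]
  · refine (measure_biUnion_finset_le _ _).trans ?_
    exact Finset.sum_le_sum fun i _ => disc_diff _ _ hρ

theorem volume_shear_image {a h : ℝ} (s : ℝ) (ha : 0 ≤ a) (hh : 0 ≤ h) (Q : Set (ℝ × ℝ)) :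
    volume (shear a s h '' Q) = ENNReal.ofReal (a * h) * volume Q := by
  let L : (ℝ × ℝ) →ₗ[ℝ] (ℝ × ℝ) := Complex.equivRealProdLm.toLinearMap ∘ₗ shear a s h
  have hdet : LinearMap.det L = a * h := by
    rw [← LinearMap.det_toMatrix (Module.Basis.finTwoProd ℝ), Matrix.det_fin_two]
    simp [L, LinearMap.toMatrix_apply, shear_re, shear_im]
  have : shear a s h '' Q = Complex.measurableEquivRealProd ⁻¹' (L '' Q) := by
    ext z
    simp only [mem_image, mem_preimage]
    constructor
    · rintro ⟨w, hw, rfl⟩; exact ⟨w, hw, rfl⟩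
    · rintro ⟨w, hw, e⟩
      refine ⟨w, hw, ?_⟩
      apply Complex.equivRealProdLm.injective
      exact e
  rw [this, Complex.volume_preserving_equiv_real_prod.measure_preimage_equiv,
    Measure.addHaar_image_linearMap, hdet, abs_of_nonneg (by positivity)]

theorem area_image_le {F : ℝ × ℝ → E3} {a s h : ℝ} (ha : 0 < a) (hh : 0 < h) {Q : Set (ℝ × ℝ)}
    (hB : ∀ u ∈ Q, ∀ v ∈ Q, ‖F u - F v‖ ≤ ‖shear a s h (u - v)‖) :
    μHE[2] (F '' Q) ≤ ENNReal.ofReal (a * h) * volume Q := by
  let G : ℂ → E3 := fun z => F (z.re / a - s * (z.im / h), z.im / h)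
  have hG : ∀ u, G (shear a s h u) = F u := by
    intro u
    simp only [G, shear_re, shear_im]
    congr 1
    ext
    · field_simp; ring
    · field_simp
  have hL : LipschitzOnWith 1 G (shear a s h '' Q) := by
    refine LipschitzOnWith.of_dist_le_mul ?_
    rintro _ ⟨u, hu, rfl⟩ _ ⟨v, hv, rfl⟩
    rw [hG, hG, dist_eq_norm, dist_eq_norm, ← map_sub, NNReal.coe_one, one_mul]
    exact hB u hu v hv
  have := muHE_image_le hL
  rw [image_image] at this
  simp only [hG] at this
  rw [muHE_complex, volume_shear_image s ha.le hh.le] at this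
  simpa using this

theorem le_area_image {F : ℝ × ℝ → E3} {a s h κ : ℝ} (ha : 0 ≤ a) (hh : 0 ≤ h) (hκ : 0 ≤ κ)
    {Q : Set (ℝ × ℝ)} (hB : ∀ u ∈ Q, ∀ v ∈ Q, ‖shear a s h (u - v)‖ ≤ κ * ‖F u - F v‖) :
    ENNReal.ofReal (a * h) * volume Q ≤ ENNReal.ofReal (κ ^ 2) * μHE[2] (F '' Q) := by
  let G : E3 → ℂ := fun x => shear a s h (Function.invFunOn F Q x)
  have hG : ∀ u ∈ Q, G (F u) = shear a s h u := by
    intro u hu
    have hex : ∃ v ∈ Q, F v = F u := ⟨u, hu, rfl⟩
    have := hB _ (Function.invFunOn_mem hex) u hu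
    rw [Function.invFunOn_eq hex, sub_self, norm_zero, mul_zero, map_sub] at this
    exact sub_eq_zero.1 (norm_le_zero_iff.1 this)
  have hL : LipschitzOnWith κ.toNNReal G (F '' Q) := by
    refine LipschitzOnWith.of_dist_le_mul ?_
    rintro _ ⟨u, hu, rfl⟩ _ ⟨v, hv, rfl⟩
    rw [hG u hu, hG v hv, dist_eq_norm, dist_eq_norm, ← map_sub, Real.coe_toNNReal _ hκ]
    exact hB u hu v hv
  have := muHE_image_le hL
  rw [image_image, image_congr hG, muHE_complex, volume_shear_image s ha hh] at this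
  rw [ENNReal.ofReal_pow hκ]
  exact this

end Pool.Agent.Lib.MP_523900_gt
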