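import Pool.Agent.Lib.MP_523900_gt.Cells

open Set MeasureTheory Metric Filter Asymptotics
open scoped ENNReal NNReal Topology RealInnerProductSpace

namespace Pool.Agent.Lib.MP_523900_gt

/-- A convex function that is differentiable at a point is strictly differentiable there. -/
theorem strict_of_convex {E : Type*} [NormedAddCommGroup E] [NormedSpace ℝ E] {φ : E → ℝ}
    (hφ : ConvexOn ℝ univ φ) {φ' : E →L[ℝ] ℝ} {u : E} (h : HasFDerivAt φ φ' u) :
    HasStrictFDerivAt φ φ' u := by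
  rw [hasStrictFDerivAt_iff_isLittleO, isLittleO_iff]
  intro c hc
  have h1 := (isLittleO_iff.1 (hasFDerivAt_iff_isLittleO.1 h)) (c := c / 4) (by positivity)
  obtain ⟨r, hr, hr'⟩ := Metric.eventually_nhds_iff.1 h1
  let ψ : E → ℝ := fun v => φ v - (φ u + φ' (v - u))
  have hconc : ConcaveOn ℝ (ball u r) (fun v => φ u + φ' (v - u)) := by
    refine ⟨convex_ball _ _, fun x _ y _ a b _ _ hab => le_of_eq ?_⟩
    have : a • x + b • y - u = a • (x - u) + b • (y - u) := by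
      rw [smul_sub, smul_sub]
      have : u = a • u + b • u := by rw [← add_smul, hab, one_smul]
      conv_lhs => rw [this]
      abel
    simp only [this, map_add, map_smul, smul_eq_mul]
    have : φ u = a * φ u + b * φ u := by rw [← add_mul, hab, one_mul]
    linarith
  have hψ : ConvexOn ℝ (ball u r) ψ := (hφ.subset (subset_univ _) (convex_ball _ _)).sub hconc
  have hL := hψ.lipschitzOnWith_of_abs_le (ε := r / 2) (M := c / 4 * r) (by positivity) (by
    intro a ha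
    have := hr' ha
    rw [Real.norm_eq_abs] at this
    have e : ψ a = φ a - φ u - φ' (a - u) := by simp only [ψ]; ring
    rw [e]
    refine this.trans ?_
    rw [dist_eq_norm] at ha
    gcongr)
  have hK : 2 * (c / 4 * r) / (r / 2) = c := by field_simp; ring
  rw [hK] at hL
  have hb : ball u (r - r / 2) ∈ 𝓝 u := ball_mem_nhds _ (by linarith)
  filter_upwards [prod_mem_nhds hb hb] with p hp
  have := hL.dist_le_mul _ hp.1 _ hp.2
  rw [Real.coe_toNNReal _ hc.le, dist_eq_norm, dist_eq_norm] at this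
  have e : φ p.1 - φ p.2 - φ' (p.1 - p.2) = ψ p.1 - ψ p.2 := by
    simp only [ψ, map_sub]; ring
  rw [e]; exact this

theorem exists_shear {T : ℝ × ℝ →L[ℝ] E3} (hT : ∀ w, T w = 0 → w = 0) :
    ∃ a s h : ℝ, 0 < a ∧ 0 < h ∧ ∀ w, ‖T w‖ = ‖shear a s h w‖ := by
  set P := T (1, 0) with hP
  have hP0 : 0 < ‖P‖ := norm_pos_iff.2 fun h => by simpa using hT _ h
  set s := ⟪P, T (0, 1)⟫ / ‖P‖ ^ 2 with hs
  set Q := T (-s, 1) with hQ
  have hQ0 : 0 < ‖Q‖ := norm_pos_iff.2 fun h => by simpa using hT _ h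
  have hQ' : Q = T (0, 1) - s • P := by
    rw [hQ, hP, ← map_smul, ← map_sub]; congr 1; simp
  have hPQ : ⟪P, Q⟫ = 0 := by
    rw [hQ', inner_sub_right, inner_smul_right, real_inner_self_eq_norm_sq, hs]
    field_simp; ring
  refine ⟨‖P‖, s, ‖Q‖, hP0, hQ0, fun w => ?_⟩
  apply (sq_eq_sq₀ (norm_nonneg _) (norm_nonneg _)).1
  have : T w = (w.1 + s * w.2) • P + w.2 • Q := by
    rw [hP, hQ, ← map_smul, ← map_smul, ← map_add]; congr 1; ext <;> simp; ring
  rw [norm_shear_sq, this, norm_add_sq_real, inner_smul_left, inner_smul_right, hPQ, norm_smul,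
    norm_smul, mul_pow, mul_pow, Real.norm_eq_abs, Real.norm_eq_abs, sq_abs, sq_abs]
  simp only [conj_trivial]
  ring

theorem norm_shear_mul {t : ℝ} (ht : 0 ≤ t) (a s h : ℝ) (w : ℝ × ℝ) :
    ‖shear (t * a) s (t * h) w‖ = t * ‖shear a s h w‖ := by
  apply (sq_eq_sq₀ (norm_nonneg _) (by positivity)).1
  rw [mul_pow, norm_shear_sq, norm_shear_sq]; ring

/-- The chart `F` is nearly a flat isometry on the ball of radius `r` about `u`. -/
def GoodOn (κ : ℝ) (F : ℝ × ℝ → E3) (u : ℝ × ℝ) (r : ℝ) : Prop :=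
  ∃ a s h : ℝ, 0 < a ∧ 0 < h ∧ ∀ v ∈ ball u r, ∀ w ∈ ball u r,
    ‖F v - F w‖ ≤ ‖shear a s h (v - w)‖ ∧ ‖shear a s h (v - w)‖ ≤ κ * ‖F v - F w‖

theorem GoodOn.mono {κ : ℝ} {F : ℝ × ℝ → E3} {u u' : ℝ × ℝ} {r r' : ℝ} (h : GoodOn κ F u r)
    (hs : ball u' r' ⊆ ball u r) : GoodOn κ F u' r' := by
  obtain ⟨a, s, h', ha, hh, H⟩ := h
  exact ⟨a, s, h', ha, hh, fun v hv w hw => H v (hs hv) w (hs hw)⟩

theorem goodOn_of_strict {κ : ℝ} (hκ : 1 < κ) {F : ℝ × ℝ → E3} {T : ℝ × ℝ →L[ℝ] E3} {u : ℝ × ℝ}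
    (hF : HasStrictFDerivAt F T u) (hT : ∀ w, T w = 0 → w = 0) : ∃ r > 0, GoodOn κ F u r := by
  obtain ⟨a, s, h, ha, hh, H⟩ := exists_shear hT
  obtain ⟨K, hK, hK'⟩ := LinearMap.exists_antilipschitzWith (T : ℝ × ℝ →ₗ[ℝ] E3)
    (LinearMap.ker_eq_bot'.2 hT)
  set δ := (κ - 1) / (κ + 1) with hδ
  have hδ0 : 0 < δ := div_pos (by linarith) (by linarith)
  have hK0 : (0 : ℝ) < K := hK
  have hδκ : 1 + δ = κ * (1 - δ) := by
    rw [hδ]; field_simp; ring
  obtain ⟨W, hW, hW'⟩ := hF.approximates_deriv_on_nhds (c := (δ / K).toNNReal)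
    (Or.inr (Real.toNNReal_pos.2 (div_pos hδ0 hK0)))
  obtain ⟨r, hr, hrW⟩ := Metric.mem_nhds_iff.1 hW
  refine ⟨r, hr, (1 + δ) * a, s, (1 + δ) * h, by positivity, by positivity, fun v hv w hw => ?_⟩
  have h1 : ‖F v - F w - T (v - w)‖ ≤ δ / K * ‖v - w‖ := by
    have := hW' v (hrW hv) w (hrW hw)
    rwa [Real.coe_toNNReal _ (div_pos hδ0 hK0).le] at this
  have h2 : ‖v - w‖ ≤ K * ‖T (v - w)‖ := by
    have := hK'.le_mul_dist (v - w) 0
    simpa using this
  have h3 : ‖F v - F w - T (v - w)‖ ≤ δ * ‖T (v - w)‖ := by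
    refine h1.trans ?_
    calc δ / K * ‖v - w‖ ≤ δ / K * (K * ‖T (v - w)‖) := by gcongr
      _ = _ := by field_simp
  rw [norm_shear_mul (by linarith), ← H]
  have h4 := norm_sub_norm_le (F v - F w) (T (v - w))
  have h5 := norm_sub_norm_le (T (v - w)) (F v - F w)
  rw [norm_sub_rev (T (v - w))] at h5
  refine ⟨by linarith, ?_⟩
  rw [hδκ, mul_assoc]
  gcongr
  linarith

/-- Points around which the chart is nearly flat at scale `1/(m+1)`. -/
def goodSet (κ : ℝ) (F : ℝ × ℝ → E3) (m : ℕ) : Set (ℝ × ℝ) :=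
  {u | ∃ r > 1 / ((m : ℝ) + 1), GoodOn κ F u r}

theorem isOpen_goodSet (κ : ℝ) (F : ℝ × ℝ → E3) (m : ℕ) : IsOpen (goodSet κ F m) := by
  rw [Metric.isOpen_iff]
  rintro u ⟨r, hr, hg⟩
  refine ⟨r - 1 / ((m : ℝ) + 1), by linarith, fun v hv => ⟨r - dist v u, ?_, hg.mono ?_⟩⟩
  · rw [mem_ball] at hv; linarith
  · exact ball_subset_ball' (by linarith)

theorem tendsto_bad {κ : ℝ} {F : ℝ × ℝ → E3} (h : ∀ᵐ u, ∃ r > 0, GoodOn κ F u r)
    {Q : Set (ℝ × ℝ)} (hQ : MeasurableSet Q) (hfin : volume Q ≠ ⊤) :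
    Tendsto (fun m => volume (Q \ goodSet κ F m)) atTop (𝓝 0) := by
  have h1 := tendsto_measure_iInter_atTop (μ := volume) (s := fun m => Q \ goodSet κ F m)
    (fun m => (hQ.diff (isOpen_goodSet κ F m).measurableSet).nullMeasurableSet)
    (fun m n hmn => sdiff_subset_sdiff_right (by
      rintro u ⟨r, hr, hg⟩
      refine ⟨r, lt_of_le_of_lt ?_ hr, hg⟩
      gcongr))
    ⟨0, ((measure_mono sdiff_subset).trans_lt hfin.lt_top).ne⟩
  have h2 : volume (⋂ m, Q \ goodSet κ F m) = 0 := by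
    refine measure_mono_null ?_ (ae_iff.1 h)
    rintro u hu ⟨r, hr, hg⟩
    obtain ⟨m, hm⟩ := exists_nat_one_div_lt hr
    exact (mem_iInter.1 hu m).2 ⟨r, hm, hg⟩
  rw [h2] at h1
  exact h1

theorem Conn.symm {S : Set E3} {x y : E3} {l : ℝ} (h : Conn S x y l ∅) : Conn S y x l ∅ := by
  obtain ⟨h0, γ, hc, hm, hx, hy, hlen, -⟩ := h
  refine ⟨h0, γ ∘ fun t => 1 - t, by fun_prop, fun t ht => hm ⟨by linarith [ht.2], by
    linarith [ht.1]⟩, by simpa using hy, by simpa using hx, le_trans ?_ hlen, empty_subset _⟩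
  refine eVariationOn.comp_le_of_antitoneOn γ _ ?_ ?_
  · intro a _ b _ hab; dsimp only; linarith
  · intro t ht; exact ⟨by linarith [ht.2], by linarith [ht.1]⟩

end Pool.Agent.Lib.MP_523900_gt
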