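import Pool.Agent.Lib.MP_523900_gt.Curves

open Set
open scoped ENNReal NNReal

namespace Pool.Agent.Lib.MP_523900_gt

/-- The upper triangular map `(x, y) ↦ (a (x + s y), h y)` to the Euclidean plane. -/
def shear (a s h : ℝ) : (ℝ × ℝ) →ₗ[ℝ] ℂ where
  toFun w := ⟨a * (w.1 + s * w.2), h * w.2⟩
  map_add' u v := by apply Complex.ext <;> simp <;> ring
  map_smul' t u := by apply Complex.ext <;> simp <;> ring

theorem shear_re (a s h : ℝ) (w : ℝ × ℝ) : (shear a s h w).re = a * (w.1 + s * w.2) := rfl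
theorem shear_im (a s h : ℝ) (w : ℝ × ℝ) : (shear a s h w).im = h * w.2 := rfl

theorem norm_shear_sq (a s h : ℝ) (w : ℝ × ℝ) :
    ‖shear a s h w‖ ^ 2 = (a * (w.1 + s * w.2)) ^ 2 + (h * w.2) ^ 2 := by
  rw [Complex.sq_norm, Complex.normSq_apply, shear_re, shear_im]; ring

theorem norm_shear_horiz {a : ℝ} (s h : ℝ) (ha : 0 ≤ a) (x : ℝ) :
    ‖shear a s h (x, 0)‖ = a * |x| := by
  apply (sq_eq_sq₀ (norm_nonneg _) (by positivity)).1
  rw [norm_shear_sq, mul_pow a |x|, sq_abs]; ring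

theorem norm_shear_perp (a s : ℝ) {h : ℝ} (hh : 0 ≤ h) (y : ℝ) :
    ‖shear a s h (-(s * y), y)‖ = h * |y| := by
  apply (sq_eq_sq₀ (norm_nonneg _) (by positivity)).1
  rw [norm_shear_sq, mul_pow h |y|, sq_abs]; ring

theorem norm_shear_vert (a s h : ℝ) {y : ℝ} (hy : 0 ≤ y) :
    ‖shear a s h (0, y)‖ = y * ‖shear a s h (0, 1)‖ := by
  have : ((0 : ℝ), y) = y • ((0 : ℝ), (1 : ℝ)) := by simp
  rw [this, map_smul, norm_smul, Real.norm_of_nonneg hy]

theorem conn_refl {S : Set E3} {x : E3} (hx : x ∈ S) : Conn S x x 0 ∅ :=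
  ⟨le_rfl, fun _ => x, continuous_const, fun _ _ => hx, rfl, rfl,
    by simpa using len_le_of_lipschitz (γ := fun _ => x) le_rfl (by simp), empty_subset _⟩

theorem conn_seg_shear {S : Set E3} {F : ℝ × ℝ → E3} (hF : Continuous F) (hS : ∀ u, F u ∈ S)
    {W : Set (ℝ × ℝ)} (hW : Convex ℝ W) {a s h : ℝ}
    (hB : ∀ u ∈ W, ∀ v ∈ W, ‖F u - F v‖ ≤ ‖shear a s h (u - v)‖) {p q : ℝ × ℝ}
    (hp : p ∈ W) (hq : q ∈ W) :
    Conn S (F p) (F q) ‖shear a s h (q - p)‖ (F '' segment ℝ p q) := by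
  refine conn_segment hF (fun u _ => hS u) (norm_nonneg _) fun t ht t' ht' => ?_
  refine (hB _ (hW.add_smul_sub_mem hp hq ht) _ (hW.add_smul_sub_mem hp hq ht')).trans ?_
  have : p + t • (q - p) - (p + t' • (q - p)) = (t - t') • (q - p) := by
    rw [sub_smul]; abel
  rw [this, map_smul, norm_smul, Real.norm_eq_abs, mul_comm]

/-- The big square around a cell. -/
def bigSq (x0 y0 η : ℝ) : Set (ℝ × ℝ) := Icc (x0 - η) (x0 + 2 * η) ×ˢ Icc (y0 - η) (y0 + 2 * η)

/-- The closed cell. -/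
def sq (x0 y0 η : ℝ) : Set (ℝ × ℝ) := Icc x0 (x0 + η) ×ˢ Icc y0 (y0 + η)

theorem convex_bigSq (x0 y0 η : ℝ) : Convex ℝ (bigSq x0 y0 η) :=
  (convex_Icc _ _).prod (convex_Icc _ _)

theorem zigzag {S : Set E3} {F : ℝ × ℝ → E3} (hF : Continuous F) (hS : ∀ u, F u ∈ S)
    {a s h x0 y0 η σ : ℝ} (ha : 0 < a) (hh : 0 < h) (hσ : 0 < σ) (hση : 2 * σ ≤ η)
    (hsσ : |s| * σ ≤ η)
    (hB : ∀ u ∈ bigSq x0 y0 η, ∀ v ∈ bigSq x0 y0 η, ‖F u - F v‖ ≤ ‖shear a s h (u - v)‖) :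
    ∃ x ∈ S, ∃ y ∈ S, ∃ T, Conn S x y
      ((η / σ + 1) * ((η + |s| * σ) * a + σ * ‖shear a s h (0, 1)‖)) T ∧
      ∀ u ∈ sq x0 y0 η, ∃ p ∈ T, Conn S (F u) p (h * σ / 2) ∅ := by
  set xL := x0 - |s| * σ / 2 with hxL
  set xR := x0 + η + |s| * σ / 2 with hxR
  set b := ‖shear a s h (0, 1)‖ with hb
  set c := (η + |s| * σ) * a + σ * b with hc
  let Y : ℕ → ℝ := fun k => y0 + σ / 2 + k * σ
  set n := ⌊η / σ⌋₊ + 1 with hn
  have hη : 0 < η := by linarith
  have hsσ0 : 0 ≤ |s| * σ := by positivity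
  have hn1 : (n : ℝ) ≤ η / σ + 1 := by
    rw [hn]; push_cast
    have := Nat.floor_le (a := η / σ) (by positivity)
    linarith
  have hnσ : (n : ℝ) * σ ≤ η + σ := by
    calc (n : ℝ) * σ ≤ (η / σ + 1) * σ := by gcongr
      _ = η + σ := by field_simp
  have hY : ∀ k ≤ n, Y k ∈ Icc (y0 - η) (y0 + 2 * η) := by
    intro k hk
    have h1 : (k : ℝ) * σ ≤ n * σ := by gcongr
    have h2 : 0 ≤ (k : ℝ) * σ := by positivity
    constructor <;> simp only [Y] <;> linarith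
  have hL : xL ∈ Icc (x0 - η) (x0 + 2 * η) := ⟨by linarith, by linarith⟩
  have hR : xR ∈ Icc (x0 - η) (x0 + 2 * η) := ⟨by linarith, by linarith⟩
  have hc0 : 0 ≤ c := by positivity
  have key : ∀ k ≤ n, ∃ x, (x = xL ∨ x = xR) ∧ Conn S (F (xL, Y 0)) (F (x, Y k)) (k * c)
      (⋃ j ∈ Finset.range k, F '' segment ℝ (xL, Y j) (xR, Y j)) := by
    intro k
    induction k with
    | zero => intro _; exact ⟨xL, Or.inl rfl, by simpa using conn_refl (hS _)⟩
    | succ k ih =>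
      intro hk
      obtain ⟨x, hx, hcon⟩ := ih (by omega)
      have hk' := hY k (by omega)
      have hk1 := hY (k + 1) hk
      have step : ∀ x x', x ∈ Icc (x0 - η) (x0 + 2 * η) → x' ∈ Icc (x0 - η) (x0 + 2 * η) →
          |x' - x| = η + |s| * σ → Conn S (F (x, Y k)) (F (x', Y (k + 1))) c
            (F '' segment ℝ (x, Y k) (x', Y k)) := by
        intro x x' hx hx' hd
        have c1 := conn_seg_shear hF hS (convex_bigSq x0 y0 η) hB (p := (x, Y k)) (q := (x', Y k))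
          ⟨hx, hk'⟩ ⟨hx', hk'⟩
        have c2 := conn_seg_shear hF hS (convex_bigSq x0 y0 η) hB (p := (x', Y k))
          (q := (x', Y (k + 1))) ⟨hx', hk'⟩ ⟨hx', hk1⟩
        refine (c1.trans c2).mono (le_of_eq ?_) subset_union_left
        have e1 : ((x', Y k) - (x, Y k) : ℝ × ℝ) = (x' - x, 0) := by simp
        have e2 : ((x', Y (k + 1)) - (x', Y k) : ℝ × ℝ) = (0, σ) := by
          ext
          · simp
          · simp only [Y, Prod.snd_sub]; push_cast; ring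
        rw [e1, e2, norm_shear_horiz s h ha.le, norm_shear_vert a s h hσ.le, hd, hc]; ring
      have hd : xR - xL = η + |s| * σ := by rw [hxL, hxR]; ring
      have hd0 : 0 ≤ η + |s| * σ := by positivity
      rcases hx with rfl | rfl
      · refine ⟨xR, Or.inr rfl, (hcon.trans (step _ _ hL hR (by rw [hd, abs_of_nonneg hd0]))).mono
          (le_of_eq (by push_cast; ring)) ?_⟩
        rw [Finset.range_add_one, Finset.set_biUnion_insert, union_comm]
      · refine ⟨xL, Or.inl rfl, (hcon.trans (step _ _ hR hL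
          (by rw [abs_sub_comm, hd, abs_of_nonneg hd0]))).mono
          (le_of_eq (by push_cast; ring)) ?_⟩
        rw [Finset.range_add_one, Finset.set_biUnion_insert, union_comm, segment_symm]
  obtain ⟨x, -, hcon⟩ := key n le_rfl
  refine ⟨_, hS _, _, hS _, _, hcon.mono (by gcongr) subset_rfl, ?_⟩
  rintro ⟨ux, uy⟩ ⟨hux, huy⟩
  simp only at hux huy
  set k := ⌊(uy - y0) / σ⌋₊ with hk
  have h0 : 0 ≤ (uy - y0) / σ := div_nonneg (by linarith [huy.1]) hσ.le
  have hkn : k < n := by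
    have : k ≤ ⌊η / σ⌋₊ := Nat.floor_mono (by gcongr; linarith [huy.2])
    omega
  have hk1 : (k : ℝ) * σ ≤ uy - y0 := by
    have := Nat.floor_le h0
    rwa [le_div_iff₀ hσ] at this
  have hk2 : uy - y0 < (k + 1) * σ := by
    have := Nat.lt_floor_add_one ((uy - y0) / σ)
    rwa [div_lt_iff₀ hσ] at this
  set d := Y k - uy with hd
  have hdabs : |d| ≤ σ / 2 := by
    rw [abs_le]; constructor <;> simp only [hd, Y] <;> linarith
  have hsd : |s * d| ≤ |s| * σ / 2 := by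
    rw [abs_mul, mul_div_assoc]; gcongr
  have hsd' := abs_le.1 hsd
  have hmem : ux - s * d ∈ Icc xL xR := ⟨by linarith [hux.1], by linarith [hux.2]⟩
  refine ⟨F (ux - s * d, Y k), ?_, ?_⟩
  · simp only [mem_iUnion]
    refine ⟨k, Finset.mem_range.2 hkn, (ux - s * d, Y k), ?_, rfl⟩
    rw [← Prod.image_mk_segment_left, segment_eq_Icc (hmem.1.trans hmem.2)]
    exact ⟨_, hmem, rfl⟩
  · have c1 := conn_seg_shear hF hS (convex_bigSq x0 y0 η) hB (p := (ux, uy))
      (q := (ux - s * d, Y k))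
      ⟨⟨by linarith [hux.1], by linarith [hux.2]⟩, ⟨by linarith [huy.1], by linarith [huy.2]⟩⟩
      ⟨⟨by linarith [hmem.1, hL.1], by linarith [hmem.2, hR.2]⟩, hY k hkn.le⟩
    refine c1.mono ?_ (empty_subset _)
    have e : ((ux - s * d, Y k) - (ux, uy) : ℝ × ℝ) = (-(s * d), d) := by
      ext
      · simp
      · simp [hd]
    rw [e, norm_shear_perp a s hh.le, mul_div_assoc]
    gcongr

end Pool.Agent.Lib.MP_523900_gt
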